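import Mathlib

set_option autoImplicit false

namespace Pool.Agent.Results.MP_2baa92_co.CodimTwo

/-- `Phi n k a`: the number of permutations `π` of the `k` indices for which the elements
`a (π 1) + 1, ..., a (π k) + k` of `ZMod n` are pairwise distinct (indices are `0, ..., k - 1`
in Lean, so the summand at index `i` is `i + 1`). -/
noncomputable def Phi (n k : ℕ) (a : Fin k → ZMod n) : ℕ :=
  Nat.card {π : Equiv.Perm (Fin k) //
    Function.Injective fun i : Fin k => a (π i) + (((i : ℕ) + 1 : ℕ) : ZMod n)}

/-- `N n k`: the minimum of `Phi n k a` over all vectors `a`. -/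
noncomputable def N (n k : ℕ) : ℕ := sInf (Set.range (Phi n k))

/-! ### Path reversal -/

section path

variable {G L : Type}

/-- the labels on the path that ends at `y`; the label `l` is an arc from `f l` to `g l` -/
inductive Pth (f g : L → G) (y : G) : L → Prop
  | base {l : L} (h : g l = y) : Pth f g y l
  | step {l l' : L} (h : Pth f g y l) (h' : g l' = f l) : Pth f g y l'

open Classical in
/-- new tails after the reversal of the path -/
noncomputable def sw (f g : L → G) (y : G) (l : L) : G := if Pth f g y l then g l else f l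

open Classical in
/-- new heads after the reversal of the path -/
noncomputable def sw' (f g : L → G) (y : G) (l : L) : G := if Pth f g y l then f l else g l

theorem pth_cases {f g : L → G} {y : G} {l : L} (h : Pth f g y l) :
    g l = y ∨ ∃ l', Pth f g y l' ∧ g l = f l' := by
  cases h with
  | base h => exact Or.inl h
  | step h h' => exact Or.inr ⟨_, h, h'⟩

theorem sw_inj {f g : L → G} {y : G} (hf : Function.Injective f) (hg : Function.Injective g)
    (hy : ∀ l, f l ≠ y) : Function.Injective (sw f g y) := by
  have key : ∀ l l', Pth f g y l → ¬ Pth f g y l' → g l ≠ f l' := by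
    intro l l' h h' he
    rcases pth_cases h with h1 | ⟨l'', h1, h2⟩
    · exact hy l' (he ▸ h1)
    · have : l'' = l' := hf (h2.symm.trans he)
      exact h' (this ▸ h1)
  intro l l' he
  unfold sw at he
  split_ifs at he with h1 h2 h2
  · exact hg he
  · exact absurd he (key l l' h1 h2)
  · exact absurd he.symm (key l' l h2 h1)
  · exact hf he

theorem sw'_inj {f g : L → G} {y : G} (hf : Function.Injective f) (hg : Function.Injective g) :
    Function.Injective (sw' f g y) := by
  have key : ∀ l l', Pth f g y l → ¬ Pth f g y l' → f l ≠ g l' := by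
    intro l l' h h' he
    exact h' (Pth.step h he.symm)
  intro l l' he
  unfold sw' at he
  split_ifs at he with h1 h2 h2
  · exact hf he
  · exact absurd he (key l l' h1 h2)
  · exact absurd he.symm (key l' l h2 h1)
  · exact hg he

theorem sw'_ne {f g : L → G} {y : G} (hy : ∀ l, f l ≠ y) (l : L) : sw' f g y l ≠ y := by
  unfold sw'
  split_ifs with h
  · exact hy l
  · exact fun he => h (Pth.base he)

theorem sw_ne {f g : L → G} {x y : G} (hxy : x ≠ y) (hx : ∀ l, f l ≠ x) (l : L) :
    sw f g y l ≠ x := by
  unfold sw
  split_ifs with h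
  · rcases pth_cases h with h1 | ⟨l', -, h2⟩
    · rw [h1]; exact hxy.symm
    · rw [h2]; exact hx l'
  · exact hx l

/-- the path can be recovered from the new tails and heads -/
theorem pth_swap {f g : L → G} {y : G} (hf : Function.Injective f)
    (hy : ∀ l, f l ≠ y) (l : L) : Pth (sw' f g y) (sw f g y) y l ↔ Pth f g y l := by
  constructor
  · intro h
    induction h with
    | @base l h =>
      unfold sw at h
      split_ifs at h with h1
      · exact h1
      · exact absurd h (hy l)
    | @step l l' h h' ih =>
      unfold sw sw' at h'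
      rw [if_pos ih] at h'
      split_ifs at h' with h1
      · exact h1
      · have : l' = l := hf h'
        rw [this]; exact ih
  · intro h
    induction h with
    | @base l h =>
      refine Pth.base ?_
      unfold sw
      rw [if_pos (Pth.base h)]
      exact h
    | @step l l' h h' ih =>
      refine Pth.step ih ?_
      unfold sw sw'
      rw [if_pos (Pth.step h h'), if_pos h]
      exact h'

/-- the old tails are recovered by a second reversal -/
theorem sw_sw {f g : L → G} {y : G} (hf : Function.Injective f)
    (hy : ∀ l, f l ≠ y) : sw' (sw' f g y) (sw f g y) y = f := by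
  funext l
  by_cases h : Pth f g y l
  · have h1 := (pth_swap hf hy l).mpr h
    rw [sw', if_pos h1, sw', if_pos h]
  · have h1 : ¬ Pth (sw' f g y) (sw f g y) y l := fun h2 => h ((pth_swap hf hy l).mp h2)
    rw [sw', if_neg h1, sw, if_neg h]

end path

/-! ### The injection -/

section inj

variable {G L : Type} [AddCommGroup G] [Fintype G] [DecidableEq G] [Fintype L]

/-- an injective function that misses two elements and one of these elements -/
theorem miss {F : L → G} (hF : Function.Injective F)
    (hc : Fintype.card G = Fintype.card L + 2) {d : G} (hd : ∀ l, F l ≠ d) :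
    (∀ l, F l ≠ (∑ g : G, g) - ∑ l, F l - d) ∧ (∑ g : G, g) - ∑ l, F l - d ≠ d := by
  classical
  set S : Finset G := (Finset.univ.image F)ᶜ with hS
  have hcard : S.card = 2 := by
    rw [hS, Finset.card_compl, Finset.card_image_of_injective _ hF, Finset.card_univ, hc]
    omega
  have hdS : d ∈ S := by
    rw [hS, Finset.mem_compl, Finset.mem_image]
    rintro ⟨l, -, hl⟩
    exact hd l hl
  obtain ⟨d', hd'⟩ : ∃ d', S.erase d = {d'} := by
    rw [← Finset.card_eq_one, Finset.card_erase_of_mem hdS, hcard]
  have hd'S : d' ∈ S.erase d := by rw [hd']; exact Finset.mem_singleton_self _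
  have hsum : (∑ g : G, g) = ∑ l, F l + (d + d') := by
    rw [← Finset.sum_add_sum_compl (Finset.univ.image F) (fun g => g), ← hS,
      Finset.sum_image (fun a _ b _ h => hF h), ← Finset.add_sum_erase S _ hdS, hd',
      Finset.sum_singleton]
  have he : (∑ g : G, g) - ∑ l, F l - d = d' := by rw [hsum]; abel
  rw [he]
  refine ⟨fun l hl => ?_, (Finset.mem_erase.mp hd'S).1⟩
  have h1 := (Finset.mem_erase.mp hd'S).2
  rw [hS, Finset.mem_compl] at h1
  exact h1 (Finset.mem_image.mpr ⟨l, Finset.mem_univ _, hl⟩)

/-- placements of the labels `a` on all rows except `x` and `y` -/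
def Small (a : L → G) (x y : G) : Type :=
  {f : L → G // Function.Injective f ∧ (∀ l, f l ≠ x) ∧ (∀ l, f l ≠ y) ∧
    Function.Injective fun l => f l + a l}

/-- placements of the labels `a` and `z` on all rows except `x` -/
def Big (a : L → G) (z x : G) : Type :=
  {F : Option L → G // Function.Injective F ∧ (∀ o, F o ≠ x) ∧
    Function.Injective fun o : Option L => F o + o.elim z a}

/-- the constant of the reversal -/
def cst (a : L → G) (z x y : G) : G := x + y - ∑ l, a l - z

/-- heads -/
def hd (a : L → G) (K : G) (f : L → G) (l : L) : G := K - (f l + a l)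

/-- the image of a placement -/
noncomputable def img (a : L → G) (z x y : G) (f : L → G) : Option L → G := fun o =>
  o.elim ((∑ g : G, g) - ∑ l, sw f (hd a (cst a z x y) f) y l - x)
    (sw f (hd a (cst a z x y) f) y)

omit [Fintype G] [DecidableEq G] [Fintype L] in
theorem sw_add {a : L → G} {K : G} {f : L → G} {y : G} (l : L) :
    sw f (hd a K f) y l + a l = K - sw' f (hd a K f) y l := by
  unfold sw sw' hd
  split_ifs with h
  · abel
  · abel

omit [Fintype G] [DecidableEq G] [Fintype L] in
theorem sw'_eq {a : L → G} {K : G} {f : L → G} {y : G} (l : L) :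
    sw' f (hd a K f) y l = K - (sw f (hd a K f) y l + a l) := by
  rw [sw_add]; abel

theorem img_big (hc : Fintype.card G = Fintype.card L + 2) (a : L → G) (z : G) {x y : G}
    (hxy : x ≠ y) (f : Small a x y) :
    Function.Injective (img a z x y f.1) ∧ (∀ o, img a z x y f.1 o ≠ x) ∧
      Function.Injective fun o : Option L => img a z x y f.1 o + o.elim z a := by
  obtain ⟨f, hf, hx, hy, hcol⟩ := f
  set K := cst a z x y with hK
  set g := hd a K f with hg
  have hginj : Function.Injective g := by
    intro l l' h
    exact hcol (sub_right_injective h)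
  set f' := sw f g y with hf'
  have hf'inj : Function.Injective f' := sw_inj hf hginj hy
  have hg'inj : Function.Injective (sw' f g y) := sw'_inj hf hginj
  have hf'x : ∀ l, f' l ≠ x := sw_ne hxy hx
  obtain ⟨hh1, hh2⟩ := miss hf'inj hc hf'x
  set h := (∑ g : G, g) - ∑ l, f' l - x with hh
  have hcol' : Function.Injective fun l => f' l + a l := by
    intro l l' he
    simp only [hf', hg, sw_add] at he
    exact hg'inj (sub_right_injective he)
  have hnd : ∀ l, f' l + a l ≠ K - y := by
    intro l he
    rw [hf', hg, sw_add] at he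
    exact sw'_ne hy l (sub_right_injective he)
  obtain ⟨hm1, -⟩ := miss hcol' hc hnd
  have hz : (∑ g : G, g) - ∑ l, (f' l + a l) - (K - y) = h + z := by
    rw [Finset.sum_add_distrib, hh, hK, cst]; abel
  rw [hz] at hm1
  refine ⟨?_, ?_, ?_⟩
  · rintro (_ | l) (_ | l') he
    · rfl
    · exact absurd he.symm (hh1 l')
    · exact absurd he (hh1 l)
    · exact congrArg some (hf'inj he)
  · rintro (_ | l)
    · exact hh2
    · exact hf'x l
  · rintro (_ | l) (_ | l') he
    · rfl
    · exact absurd he.symm (hm1 l')
    · exact absurd he (hm1 l)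
    · exact congrArg some (hcol' he)

/-- adding one element never decreases the number of placements (all rows except two versus all
rows except one) -/
theorem card_small_le [Finite L] (hc : Fintype.card G = Fintype.card L + 2) (a : L → G) (z : G)
    {x y : G} (hxy : x ≠ y) : Nat.card (Small a x y) ≤ Nat.card (Big a z x) := by
  have : Finite (Big a z x) := Subtype.finite
  refine Nat.card_le_card_of_injective
    (fun f => (⟨img a z x y f.1, img_big hc a z hxy f⟩ : Big a z x)) ?_
  rintro ⟨f, hf, hx, hy, hcol⟩ ⟨f₂, hf₂, hx₂, hy₂, hcol₂⟩ he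
  have he' : img a z x y f = img a z x y f₂ := congrArg Subtype.val he
  have h1 : sw f (hd a (cst a z x y) f) y = sw f₂ (hd a (cst a z x y) f₂) y := by
    funext l
    exact congrFun he' (some l)
  have h2 : sw' f (hd a (cst a z x y) f) y = sw' f₂ (hd a (cst a z x y) f₂) y := by
    funext l
    rw [sw'_eq, sw'_eq, h1]
  have h3 := sw_sw (g := hd a (cst a z x y) f) hf hy
  have h4 := sw_sw (g := hd a (cst a z x y) f₂) hf₂ hy₂
  rw [h1, h2] at h3
  exact Subtype.ext (h3.symm.trans h4)

end inj

/-! ### Back to the problem -/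

/-- rows -/
theorem row_inj {n k : ℕ} (hk : k < n) :
    Function.Injective fun i : Fin k => (((i : ℕ) + 1 : ℕ) : ZMod n) := by
  intro i j h
  have h1 : ((i : ℕ) + 1) ≡ ((j : ℕ) + 1) [MOD n] := (ZMod.natCast_eq_natCast_iff _ _ _).mp h
  have h2 := Nat.ModEq.eq_of_lt_of_lt h1 (by omega) (by omega)
  exact Fin.ext (by omega)

theorem row_ne {n k c : ℕ} (hk : k < n) (hc : c < n) (hc' : c = 0 ∨ k < c) (i : Fin k) :
    (((i : ℕ) + 1 : ℕ) : ZMod n) ≠ ((c : ℕ) : ZMod n) := by
  intro h
  have h1 : ((i : ℕ) + 1) ≡ c [MOD n] := (ZMod.natCast_eq_natCast_iff _ _ _).mp h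
  have h2 := Nat.ModEq.eq_of_lt_of_lt h1 (by omega) hc
  omega

theorem phi_le {m : ℕ} (a : Fin (m + 1) → ZMod (m + 3)) (z : ZMod (m + 3)) :
    Phi (m + 3) (m + 1) a ≤ Phi (m + 3) (m + 2) (Fin.snoc (α := fun _ => ZMod (m + 3)) a z) := by
  classical
  have hxy : (((0 : ℕ) : ZMod (m + 3))) ≠ (((m + 2 : ℕ)) : ZMod (m + 3)) := by
    intro h
    have h1 : 0 ≡ (m + 2) [MOD (m + 3)] := (ZMod.natCast_eq_natCast_iff _ _ _).mp h
    have h2 := Nat.ModEq.eq_of_lt_of_lt h1 (by omega) (by omega)
    omega
  have hc : Fintype.card (ZMod (m + 3)) = Fintype.card (Fin (m + 1)) + 2 := by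
    rw [ZMod.card, Fintype.card_fin]
  have key := card_small_le hc a z hxy
  -- left side
  have hL : Phi (m + 3) (m + 1) a ≤ Nat.card (Small a (((0 : ℕ) : ZMod (m + 3)))
      (((m + 2 : ℕ)) : ZMod (m + 3))) := by
    have : Finite (Small a (((0 : ℕ) : ZMod (m + 3))) (((m + 2 : ℕ)) : ZMod (m + 3))) :=
      Subtype.finite
    refine Nat.card_le_card_of_injective (fun π => ⟨fun l =>
      ((((π.1.symm l : Fin (m + 1)) : ℕ) + 1 : ℕ) : ZMod (m + 3)), ?_, ?_, ?_, ?_⟩) ?_
    · intro l l' h
      exact π.1.symm.injective (row_inj (by omega) h)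
    · intro l
      exact row_ne (by omega) (by omega) (Or.inl rfl) _
    · intro l
      exact row_ne (by omega) (by omega) (Or.inr (by omega)) _
    · intro l l' h
      have h1 := π.2 (a₁ := π.1.symm l) (a₂ := π.1.symm l') (by
        simp only [Equiv.apply_symm_apply] at h ⊢
        rw [add_comm (a l), add_comm (a l')]
        exact h)
      exact π.1.symm.injective h1
    · intro π π' h
      have h1 := congrArg Subtype.val h
      apply Subtype.ext
      have h2 : π.1.symm = π'.1.symm := by
        ext l
        have := row_inj (n := m + 3) (k := m + 1) (by omega) (congrFun h1 l)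
        rw [this]
      rw [← Equiv.symm_symm π.1, h2, Equiv.symm_symm]
  -- right side
  have hR : Nat.card (Big a z (((0 : ℕ) : ZMod (m + 3)))) ≤
      Phi (m + 3) (m + 2) (Fin.snoc (α := fun _ => ZMod (m + 3)) a z) := by
    let T := {g : ZMod (m + 3) // g ≠ (((0 : ℕ) : ZMod (m + 3)))}
    have hT : Fintype.card T = m + 2 := by
      rw [Fintype.card_subtype_compl, Fintype.card_subtype_eq, ZMod.card]
      rfl
    let r : Fin (m + 2) → T := fun i => ⟨(((i : ℕ) + 1 : ℕ) : ZMod (m + 3)),
      row_ne (by omega) (by omega) (Or.inl rfl) _⟩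
    have hr : Function.Bijective r := by
      rw [Fintype.bijective_iff_injective_and_card]
      refine ⟨fun i j h => row_inj (by omega) (congrArg Subtype.val h), ?_⟩
      rw [hT, Fintype.card_fin]
    let F' : Big a z (((0 : ℕ) : ZMod (m + 3))) → Fin (m + 2) → T :=
      fun F j => ⟨F.1 (finSuccEquivLast j), F.2.2.1 _⟩
    have hF' : ∀ F, Function.Bijective (F' F) := by
      intro F
      rw [Fintype.bijective_iff_injective_and_card]
      refine ⟨fun i j h => ?_, ?_⟩
      · have h1 : F.1 (finSuccEquivLast i) = F.1 (finSuccEquivLast j) := congrArg Subtype.val h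
        exact finSuccEquivLast.injective (F.2.1 h1)
      · rw [hT, Fintype.card_fin]
    have hsn : ∀ j : Fin (m + 2), (Fin.snoc (α := fun _ => ZMod (m + 3)) a z) j =
        (finSuccEquivLast j).elim z a := by
      intro j
      refine Fin.lastCases ?_ (fun i => ?_) j
      · rw [Fin.snoc_last, finSuccEquivLast_last]; rfl
      · rw [Fin.snoc_castSucc, finSuccEquivLast_castSucc]; rfl
    refine Nat.card_le_card_of_injective (fun F =>
      ⟨(Equiv.ofBijective r hr).trans (Equiv.ofBijective (F' F) (hF' F)).symm, ?_⟩) ?_
    · intro i j h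
      set π := (Equiv.ofBijective r hr).trans (Equiv.ofBijective (F' F) (hF' F)).symm with hπ
      have hrow : ∀ i, F.1 (finSuccEquivLast (π i)) = (((i : ℕ) + 1 : ℕ) : ZMod (m + 3)) := by
        intro i
        have h1 : F' F (π i) = r i := by
          have := (Equiv.ofBijective (F' F) (hF' F)).apply_symm_apply (r i)
          exact this
        exact congrArg Subtype.val h1
      simp only [hsn] at h
      rw [← hrow i, ← hrow j] at h
      have h2 := F.2.2.2 (a₁ := finSuccEquivLast (π i)) (a₂ := finSuccEquivLast (π j))
        ((add_comm _ _).trans (h.trans (add_comm _ _)))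
      exact π.injective (finSuccEquivLast.injective h2)
    · intro F F₂ h
      have h1 := congrArg Subtype.val h
      have h2 : (Equiv.ofBijective (F' F) (hF' F)).symm =
          (Equiv.ofBijective (F' F₂) (hF' F₂)).symm := by
        ext t
        obtain ⟨i, rfl⟩ := (Equiv.ofBijective r hr).surjective t
        have := congrArg (fun e : Equiv.Perm (Fin (m + 2)) => e i) h1
        exact congrArg Fin.val this
      have h3 : Equiv.ofBijective (F' F) (hF' F) = Equiv.ofBijective (F' F₂) (hF' F₂) := by
        rw [← Equiv.symm_symm (Equiv.ofBijective (F' F) (hF' F)), h2, Equiv.symm_symm]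
      apply Subtype.ext
      funext o
      obtain ⟨j, rfl⟩ := finSuccEquivLast.surjective o
      have := congrArg (fun e : Fin (m + 2) ≃ T => (e j).1) h3
      exact this
  exact hL.trans (key.trans hR)

/-- For every `n ≥ 3` and `k = n - 2`: adding an arbitrary element to an arbitrary vector never
decreases the count; in particular `N(n, n - 2) ≤ N(n, n - 1)`. -/
theorem result (m : ℕ) :
    (∀ (a : Fin (m + 1) → ZMod (m + 3)) (z : ZMod (m + 3)),
      Phi (m + 3) (m + 1) a ≤
        Phi (m + 3) (m + 2) (Fin.snoc (α := fun _ => ZMod (m + 3)) a z)) ∧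
    N (m + 3) (m + 1) ≤ N (m + 3) (m + 2) := by
  refine ⟨phi_le, ?_⟩
  obtain ⟨a, ha⟩ : N (m + 3) (m + 2) ∈ Set.range (Phi (m + 3) (m + 2)) :=
    Nat.sInf_mem (Set.range_nonempty _)
  rw [← ha, ← Fin.snoc_init_self (α := fun _ => ZMod (m + 3)) a]
  exact (Nat.sInf_le (Set.mem_range_self (Fin.init a))).trans (phi_le _ _)

end Pool.Agent.Results.MP_2baa92_co.CodimTwo
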