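import Mathlib
import Pool.Agent.Lib.MP_2baa92_co.MostlyDistinct

set_option autoImplicit false

namespace Pool.Agent.Results.MP_2baa92_co.MostlyDistinct

open Pool.Agent.Lib.MP_2baa92_co.MostlyDistinct in
/-- Linear range, vectors with few repeated values. From every vector of `k + 1` entries of
`ZMod n` with at least `k + 1 - D` distinct values one entry can be removed without increasing the
count of admissible permutations, if `D ≤ (k + 1) / 3` and `n ≥ 648 (k + 1)`, or if `D = 0` and
`n ≥ 78 (k + 1)`; hence the minimum of the count over the vectors of length `k` with at least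
`k - D` distinct values is at most the same minimum for `k + 1`. -/
theorem result : ∀ n k D : ℕ, 0 < k →
    ((3 * D ≤ k + 1 ∧ 648 * (k + 1) ≤ n) ∨ (D = 0 ∧ 78 * (k + 1) ≤ n)) →
    (∀ b : Fin (k + 1) → ZMod n, k + 1 ≤ (Finset.univ.image b).card + D → ∃ j : Fin (k + 1),
      Phi n k (b ∘ j.succAbove) ≤ Phi n (k + 1) b) ∧ Nd n k D ≤ Nd n (k + 1) D :=
  fun n k D hk hn => Pool.Agent.Lib.MP_2baa92_co.MostlyDistinct.result n k D hk hn

end Pool.Agent.Results.MP_2baa92_co.MostlyDistinct
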