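import Mathlib

set_option autoImplicit false

namespace Pool.Agent.Results.MP_2baa92_co.PolylogRange

/-- `Phi n k a`: the number of permutations `π` of the `k` indices for which the elements
`a (π 1) + 1, ..., a (π k) + k` of `ZMod n` are pairwise distinct (indices are `0, ..., k - 1`
in Lean, so the summand at index `i` is `i + 1`). -/
noncomputable def Phi (n k : ℕ) (a : Fin k → ZMod n) : ℕ :=
  Nat.card {π : Equiv.Perm (Fin k) //
    Function.Injective fun i : Fin k => a (π i) + (((i : ℕ) + 1 : ℕ) : ZMod n)}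

/-- `N n k`: the minimum of `Phi n k a` over all vectors `a`. -/
noncomputable def N (n k : ℕ) : ℕ := sInf (Set.range (Phi n k))

section switching

variable {n k : ℕ}

/-- the column of the row `r` under the placement `g` (rows to tokens) -/
def col (b : Fin (k + 1) → ZMod n) (g : Equiv.Perm (Fin (k + 1))) (r : Fin (k + 1)) : ZMod n :=
  b (g r) + ((r : ℕ) : ZMod n)

/-- two tokens can collide -/
def Near (b : Fin (k + 1) → ZMod n) (u v : Fin (k + 1)) : Prop :=
  ∃ r r' : Fin (k + 1), b u + ((r : ℕ) : ZMod n) = b v + ((r' : ℕ) : ZMod n)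

open Classical in
/-- tokens near `v` -/
noncomputable def Nb (b : Fin (k + 1) → ZMod n) (v : Fin (k + 1)) : Finset (Fin (k + 1)) :=
  Finset.univ.filter fun u => Near b u v

theorem mem_Nb {b : Fin (k + 1) → ZMod n} {u v : Fin (k + 1)} : u ∈ Nb b v ↔ Near b u v := by
  simp [Nb]

theorem Near.symm {b : Fin (k + 1) → ZMod n} {u v : Fin (k + 1)} (h : Near b u v) : Near b v u := by
  obtain ⟨r, r', h⟩ := h
  exact ⟨r', r, h.symm⟩

theorem Near.refl (b : Fin (k + 1) → ZMod n) (u : Fin (k + 1)) : Near b u u := ⟨0, 0, rfl⟩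

theorem row_inj (hn : k < n) {r r' : Fin (k + 1)}
    (h : ((r : ℕ) : ZMod n) = ((r' : ℕ) : ZMod n)) : r = r' := by
  apply Fin.ext
  have h1 := (ZMod.natCast_eq_natCast_iff' _ _ _).1 h
  rwa [Nat.mod_eq_of_lt (lt_of_le_of_lt (Nat.lt_succ_iff.1 r.2) hn),
    Nat.mod_eq_of_lt (lt_of_le_of_lt (Nat.lt_succ_iff.1 r'.2) hn)] at h1

open Classical in
/-- number of runs of length `s` from the state `(h, ρ, U)` that end at `τ` -/
noncomputable def R (b : Fin (k + 1) → ZMod n) (F : Finset (Fin (k + 1))) :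
    ℕ → Equiv.Perm (Fin (k + 1)) → Fin (k + 1) → Finset (Fin (k + 1)) →
      Equiv.Perm (Fin (k + 1)) → ℕ
  | 0, h, ρ, U, τ =>
    (Finset.univ.filter fun i => i ∉ U ∧ h i ∈ F ∧ h * Equiv.swap ρ i = τ).card
  | s + 1, h, ρ, U, τ =>
    ∑ i ∈ Finset.univ.filter (fun i => i ∉ U ∧ h i ∈ F),
      ∑ ρ' ∈ Finset.univ.filter (fun ρ' => ρ' ∉ U ∧ ρ' ≠ i ∧
          b (h i) + ((ρ : ℕ) : ZMod n) = b (h ρ') + ((ρ' : ℕ) : ZMod n)),
        R b F s (h * Equiv.swap ρ i) ρ' (insert i (insert ρ' U)) τ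

theorem R_agree {b : Fin (k + 1) → ZMod n} {F : Finset (Fin (k + 1))} :
    ∀ (s : ℕ) (h : Equiv.Perm (Fin (k + 1))) (ρ : Fin (k + 1)) (U : Finset (Fin (k + 1)))
      (τ : Equiv.Perm (Fin (k + 1))), R b F s h ρ U τ ≠ 0 → ρ ∈ U → ∀ r ∈ U, r ≠ ρ → τ r = h r := by
  intro s
  induction s with
  | zero =>
    intro h ρ U τ hR hρ r hr hrρ
    rw [R, Finset.card_ne_zero] at hR
    obtain ⟨i, hi⟩ := hR
    simp only [Finset.mem_filter, Finset.mem_univ, true_and] at hi
    obtain ⟨h1, h2, rfl⟩ := hi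
    rw [Equiv.Perm.mul_apply, Equiv.swap_apply_of_ne_of_ne hrρ]
    rintro rfl
    exact h1 hr
  | succ s ih =>
    intro h ρ U τ hR hρ r hr hrρ
    rw [R] at hR
    obtain ⟨i, hi, hR⟩ := Finset.exists_ne_zero_of_sum_ne_zero hR
    obtain ⟨ρ', hρ', hR⟩ := Finset.exists_ne_zero_of_sum_ne_zero hR
    simp only [Finset.mem_filter, Finset.mem_univ, true_and] at hi hρ'
    have h1 := ih _ _ _ _ hR (Finset.mem_insert_of_mem (Finset.mem_insert_self _ _)) r
      (Finset.mem_insert_of_mem (Finset.mem_insert_of_mem hr)) (by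
        rintro rfl
        exact hρ'.1 hr)
    rw [h1, Equiv.Perm.mul_apply, Equiv.swap_apply_of_ne_of_ne hrρ]
    rintro rfl
    exact hi.1 hr

open Classical in
theorem pair_count (hn : k < n) (b : Fin (k + 1) → ZMod n) (x ρ : Fin (k + 1)) :
    ∑ ρ' : Fin (k + 1), ∑ t : Fin (k + 1),
      (if b x + ((ρ : ℕ) : ZMod n) = b t + ((ρ' : ℕ) : ZMod n) then 1 else 0) ≤
      (Nb b x).card := by
  rw [Finset.sum_comm, Nb, Finset.card_filter]
  apply Finset.sum_le_sum
  intro t _
  by_cases ht : Near b t x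
  · rw [if_pos ht, ← Finset.card_filter]
    apply Finset.card_le_one.2
    intro a ha c hc
    simp only [Finset.mem_filter, Finset.mem_univ, true_and] at ha hc
    exact row_inj hn (add_left_cancel (ha.symm.trans hc))
  · rw [if_neg ht, ← Finset.card_filter, Nat.le_zero, Finset.card_eq_zero]
    apply Finset.filter_eq_empty_iff.2
    intro a _ ha
    exact ht ⟨a, ρ, ha.symm⟩

open Classical in
theorem decode (hn : k < n) {b : Fin (k + 1) → ZMod n} {F : Finset (Fin (k + 1))} {D : ℕ}
    (hD : ∀ x ∈ F, (Nb b x).card ≤ D) :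
    ∀ (s : ℕ) (ρ : Fin (k + 1)) (U : Finset (Fin (k + 1))) (τ : Equiv.Perm (Fin (k + 1)))
      (t0 : Fin (k + 1)), ρ ∈ U →
      ∑ h ∈ Finset.univ.filter (fun h : Equiv.Perm (Fin (k + 1)) => h ρ = t0),
        R b F s h ρ U τ ≤ D ^ s := by
  intro s
  induction s with
  | zero =>
    intro ρ U τ t0 hρ
    set i0 := τ.symm t0 with hi0
    have key : ∀ h ∈ Finset.univ.filter (fun h : Equiv.Perm (Fin (k + 1)) => h ρ = t0),
        R b F 0 h ρ U τ ≤ if h = τ * Equiv.swap ρ i0 then 1 else 0 := by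
      intro h hh
      simp only [Finset.mem_filter, Finset.mem_univ, true_and] at hh
      have hi : ∀ i, h * Equiv.swap ρ i = τ → i = i0 := by
        intro i hi
        rw [hi0, ← hh, ← hi, Equiv.eq_symm_apply, Equiv.Perm.mul_apply, Equiv.swap_apply_right]
      rw [R]
      split_ifs with h1
      · apply Finset.card_le_one.2
        intro a ha c hc
        simp only [Finset.mem_filter, Finset.mem_univ, true_and] at ha hc
        rw [hi a ha.2.2, hi c hc.2.2]
      · rw [Nat.le_zero, Finset.card_eq_zero]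
        apply Finset.filter_eq_empty_iff.2
        rintro i - ⟨-, -, h2⟩
        apply h1
        rw [← hi i h2, ← h2, mul_assoc, Equiv.swap_mul_self, mul_one]
    refine (Finset.sum_le_sum key).trans ?_
    rw [← Finset.card_filter, pow_zero]
    apply Finset.card_le_one.2
    intro a ha c hc
    simp only [Finset.mem_filter] at ha hc
    rw [ha.2, hc.2]
  | succ s ih =>
    intro ρ U τ t0 hρ
    set i0 := τ.symm t0 with hi0
    -- only `i = i0` contributes
    have key : ∀ h ∈ Finset.univ.filter (fun h : Equiv.Perm (Fin (k + 1)) => h ρ = t0),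
        R b F (s + 1) h ρ U τ ≤ ∑ ρ' : Fin (k + 1),
          if τ ρ ∈ F ∧ b (τ ρ) + ((ρ : ℕ) : ZMod n) =
              b ((h * Equiv.swap ρ i0) ρ') + ((ρ' : ℕ) : ZMod n) then
            R b F s (h * Equiv.swap ρ i0) ρ' (insert i0 (insert ρ' U)) τ else 0 := by
      intro h hh
      simp only [Finset.mem_filter, Finset.mem_univ, true_and] at hh
      rw [R]
      have h1 : ∀ i ∈ Finset.univ.filter (fun i => i ∉ U ∧ h i ∈ F), i ≠ i0 →
          ∑ ρ' ∈ Finset.univ.filter (fun ρ' => ρ' ∉ U ∧ ρ' ≠ i ∧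
            b (h i) + ((ρ : ℕ) : ZMod n) = b (h ρ') + ((ρ' : ℕ) : ZMod n)),
            R b F s (h * Equiv.swap ρ i) ρ' (insert i (insert ρ' U)) τ = 0 := by
        intro i hi hii
        simp only [Finset.mem_filter, Finset.mem_univ, true_and] at hi
        apply Finset.sum_eq_zero
        intro ρ' hρ'
        simp only [Finset.mem_filter, Finset.mem_univ, true_and] at hρ'
        by_contra hne
        have h2 := R_agree _ _ _ _ _ hne (Finset.mem_insert_of_mem (Finset.mem_insert_self _ _)) i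
          (Finset.mem_insert_self _ _) (Ne.symm hρ'.2.1)
        rw [Equiv.Perm.mul_apply, Equiv.swap_apply_right, hh] at h2
        exact hii (by rw [hi0, ← h2, Equiv.symm_apply_apply])
      by_cases hi : i0 ∉ U ∧ h i0 ∈ F
      · rw [Finset.sum_eq_single_of_mem i0 (by simpa using hi) h1]
        rw [← Finset.sum_filter]
        have h3 : ∀ ρ' ∈ Finset.univ.filter (fun ρ' => ρ' ∉ U ∧ ρ' ≠ i0 ∧
            b (h i0) + ((ρ : ℕ) : ZMod n) = b (h ρ') + ((ρ' : ℕ) : ZMod n)),
            R b F s (h * Equiv.swap ρ i0) ρ' (insert i0 (insert ρ' U)) τ ≠ 0 →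
            ρ' ∈ Finset.univ.filter (fun ρ' => τ ρ ∈ F ∧ b (τ ρ) + ((ρ : ℕ) : ZMod n) =
              b ((h * Equiv.swap ρ i0) ρ') + ((ρ' : ℕ) : ZMod n)) := by
          intro ρ' hρ' hne
          simp only [Finset.mem_filter, Finset.mem_univ, true_and] at hρ' ⊢
          have h2 := R_agree _ _ _ _ _ hne (Finset.mem_insert_of_mem (Finset.mem_insert_self _ _))
            ρ (Finset.mem_insert_of_mem (Finset.mem_insert_of_mem hρ)) (by
              rintro rfl
              exact hρ'.1 hρ)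
          rw [Equiv.Perm.mul_apply, Equiv.swap_apply_left] at h2
          rw [h2]
          refine ⟨hi.2, ?_⟩
          rw [Equiv.Perm.mul_apply, Equiv.swap_apply_of_ne_of_ne _ hρ'.2.1]
          · exact hρ'.2.2
          · rintro rfl
            exact hρ'.1 hρ
        apply Finset.sum_le_sum_of_ne_zero
        intro ρ' hρ' hne
        exact h3 ρ' hρ' hne
      · rw [Finset.sum_eq_zero]
        · exact Nat.zero_le _
        · intro i hi'
          apply h1 i hi'
          rintro rfl
          exact hi (by simpa using hi')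
    refine (Finset.sum_le_sum key).trans ?_
    -- reindex
    set G : Fin (k + 1) → Equiv.Perm (Fin (k + 1)) → ℕ := fun ρ' h1 =>
      if τ ρ ∈ F ∧ b (τ ρ) + ((ρ : ℕ) : ZMod n) = b (h1 ρ') + ((ρ' : ℕ) : ZMod n) then
        R b F s h1 ρ' (insert i0 (insert ρ' U)) τ else 0 with hG
    have h4 : ∑ h ∈ Finset.univ.filter (fun h : Equiv.Perm (Fin (k + 1)) => h ρ = t0),
        ∑ ρ' : Fin (k + 1), G ρ' (h * Equiv.swap ρ i0) ≤
        ∑ h1 : Equiv.Perm (Fin (k + 1)), ∑ ρ' : Fin (k + 1), G ρ' h1 := by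
      rw [← Equiv.sum_comp (Equiv.mulRight (Equiv.swap ρ i0))
        (fun h1 : Equiv.Perm (Fin (k + 1)) => ∑ ρ' : Fin (k + 1), G ρ' h1)]
      exact Finset.sum_le_sum_of_subset (Finset.filter_subset _ _)
    refine h4.trans ?_
    rw [Finset.sum_comm]
    have h5 : ∀ ρ' : Fin (k + 1), ∑ h1 : Equiv.Perm (Fin (k + 1)), G ρ' h1 ≤
        ∑ t : Fin (k + 1), (if τ ρ ∈ F ∧ b (τ ρ) + ((ρ : ℕ) : ZMod n) =
          b t + ((ρ' : ℕ) : ZMod n) then 1 else 0) * D ^ s := by
      intro ρ'
      rw [← Finset.sum_fiberwise Finset.univ (fun h1 : Equiv.Perm (Fin (k + 1)) => h1 ρ') (G ρ')]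
      apply Finset.sum_le_sum
      intro t _
      split_ifs with h6
      · rw [one_mul]
        refine (Finset.sum_le_sum ?_).trans (ih ρ' (insert i0 (insert ρ' U)) τ t
          (Finset.mem_insert_of_mem (Finset.mem_insert_self _ _)))
        intro h1 _
        simp only [hG]
        split_ifs
        · exact le_rfl
        · exact Nat.zero_le _
      · rw [zero_mul, Nat.le_zero]
        apply Finset.sum_eq_zero
        intro h1 hh1
        simp only [Finset.mem_filter, Finset.mem_univ, true_and] at hh1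
        simp only [hG]
        rw [hh1, if_neg h6]
    refine (Finset.sum_le_sum fun ρ' _ => h5 ρ').trans ?_
    by_cases hF : τ ρ ∈ F
    · simp only [hF, true_and]
      simp only [← Finset.sum_mul]
      rw [pow_succ, mul_comm (D ^ s) D]
      exact Nat.mul_le_mul_right _ ((pair_count hn b (τ ρ) ρ).trans (hD _ hF))
    · simp [hF]

open Classical in
/-- the valid placements -/
noncomputable def T (b : Fin (k + 1) → ZMod n) : Finset (Equiv.Perm (Fin (k + 1))) :=
  Finset.univ.filter fun τ => Function.Injective (col b τ)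

/-- number of successful runs of length `s` -/
noncomputable def C (b : Fin (k + 1) → ZMod n) (F : Finset (Fin (k + 1))) (s : ℕ)
    (h : Equiv.Perm (Fin (k + 1))) (ρ : Fin (k + 1)) (U : Finset (Fin (k + 1))) : ℕ :=
  ∑ τ ∈ T b, R b F s h ρ U τ

open Classical in
theorem upper (hn : k < n) {b : Fin (k + 1) → ZMod n} {F : Finset (Fin (k + 1))} {D : ℕ}
    (hD : ∀ x ∈ F, (Nb b x).card ≤ D) (s : ℕ) :
    ∑ g ∈ Finset.univ.filter (fun g : Equiv.Perm (Fin (k + 1)) => g (Fin.last k) ∈ F),
      C b F s g (Fin.last k) {Fin.last k} ≤ F.card * (T b).card * D ^ s := by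
  simp only [C]
  rw [Finset.sum_comm, mul_comm F.card, mul_assoc, ← smul_eq_mul]
  apply Finset.sum_le_card_nsmul
  intro τ _
  have h1 : ∀ g ∈ Finset.univ.filter (fun g : Equiv.Perm (Fin (k + 1)) => g (Fin.last k) ∈ F),
      g (Fin.last k) ∈ F := by
    intro g hg
    simpa using hg
  rw [← Finset.sum_fiberwise_of_maps_to h1, ← smul_eq_mul]
  apply Finset.sum_le_card_nsmul
  intro z _
  refine le_trans ?_ (decode hn hD s (Fin.last k) {Fin.last k} τ z (Finset.mem_singleton_self _))
  apply Finset.sum_le_sum_of_subset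
  intro g hg
  simp only [Finset.mem_filter, Finset.mem_univ, true_and] at hg ⊢
  exact hg.2

theorem C_zero {b : Fin (k + 1) → ZMod n} {F : Finset (Fin (k + 1))}
    (h : Equiv.Perm (Fin (k + 1))) (ρ : Fin (k + 1)) (U : Finset (Fin (k + 1)))
    (A : Finset (Fin (k + 1)))
    (hA : ∀ i ∈ A, i ∉ U ∧ h i ∈ F ∧ Function.Injective (col b (h * Equiv.swap ρ i))) :
    A.card ≤ C b F 0 h ρ U := by
  classical
  simp only [C, R]
  rw [← Finset.card_sigma]
  refine Finset.card_le_card_of_injOn (fun i => ⟨h * Equiv.swap ρ i, i⟩) ?_ ?_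
  · intro i hi
    have := hA i hi
    simp [T, this.1, this.2.1, this.2.2]
  · intro i _ j _ hij
    have := congrArg Sigma.snd hij
    exact this

open Classical in
theorem C_succ {b : Fin (k + 1) → ZMod n} {F : Finset (Fin (k + 1))} (s : ℕ)
    (h : Equiv.Perm (Fin (k + 1))) (ρ : Fin (k + 1)) (U : Finset (Fin (k + 1))) :
    C b F (s + 1) h ρ U =
    ∑ i ∈ Finset.univ.filter (fun i => i ∉ U ∧ h i ∈ F),
      ∑ ρ' ∈ Finset.univ.filter (fun ρ' => ρ' ∉ U ∧ ρ' ≠ i ∧
          b (h i) + ((ρ : ℕ) : ZMod n) = b (h ρ') + ((ρ' : ℕ) : ZMod n)),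
        C b F s (h * Equiv.swap ρ i) ρ' (insert i (insert ρ' U)) := by
  simp only [C, R]
  rw [Finset.sum_comm]
  apply Finset.sum_congr rfl
  intro i _
  rw [Finset.sum_comm]

/-- states: current placement, current row, used rows -/
abbrev St (k : ℕ) : Type :=
  Equiv.Perm (Fin (k + 1)) × Fin (k + 1) × Finset (Fin (k + 1))

/-- the next state -/
def nxt (st : St k) (a : Fin (k + 1) × Fin (k + 1)) : St k :=
  (st.1 * Equiv.swap st.2.1 a.1, a.2, insert a.1 (insert a.2 st.2.2))

/-- state reached by a list of moves (last move first) -/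
def stt (g : Equiv.Perm (Fin (k + 1))) : List (Fin (k + 1) × Fin (k + 1)) → St k
  | [] => (g, Fin.last k, {Fin.last k})
  | a :: p => nxt (stt g p) a

/-- the row `i` may be chosen -/
def Good (b : Fin (k + 1) → ZMod n) (F : Finset (Fin (k + 1))) (st : St k) (i : Fin (k + 1)) :
    Prop :=
  i ∉ st.2.2 ∧ st.1 i ∈ F ∧
  (∀ r, r ≠ st.2.1 → r ≠ i → b (st.1 st.2.1) + ((i : ℕ) : ZMod n) ≠ col b st.1 r) ∧
  (∀ r ∈ st.2.2, r ≠ st.2.1 → b (st.1 i) + ((st.2.1 : ℕ) : ZMod n) ≠ col b st.1 r) ∧
  b (st.1 i) + ((st.2.1 : ℕ) : ZMod n) ≠ b (st.1 st.2.1) + ((i : ℕ) : ZMod n)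

open Classical in
/-- possible extensions -/
noncomputable def Ext (b : Fin (k + 1) → ZMod n) (F : Finset (Fin (k + 1))) (st : St k) :
    Finset (Fin (k + 1) × Fin (k + 1)) :=
  Finset.univ.filter fun a => Good b F st a.1 ∧ a.2 ∉ st.2.2 ∧ a.2 ≠ a.1 ∧
    b (st.1 a.1) + ((st.2.1 : ℕ) : ZMod n) = b (st.1 a.2) + ((a.2 : ℕ) : ZMod n)

open Classical in
/-- truncated runs -/
noncomputable def P (b : Fin (k + 1) → ZMod n) (F : Finset (Fin (k + 1)))
    (g : Equiv.Perm (Fin (k + 1))) : ℕ → Finset (List (Fin (k + 1) × Fin (k + 1)))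
  | 0 => {[]}
  | j + 1 => (P b F g j).biUnion fun p => (Ext b F (stt g p)).image fun a => a :: p

/-- `C` of a state -/
noncomputable def CS (b : Fin (k + 1) → ZMod n) (F : Finset (Fin (k + 1))) (s : ℕ) (st : St k) :
    ℕ := C b F s st.1 st.2.1 st.2.2

theorem CS_succ_ge {b : Fin (k + 1) → ZMod n} {F : Finset (Fin (k + 1))} (s : ℕ) (st : St k) :
    ∑ a ∈ Ext b F st, CS b F s (nxt st a) ≤ CS b F (s + 1) st := by
  classical
  unfold CS
  rw [C_succ, Ext, Finset.sum_filter, Finset.sum_filter, Fintype.sum_prod_type]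
  apply Finset.sum_le_sum
  intro i _
  by_cases hi : i ∉ st.2.2 ∧ st.1 i ∈ F
  · rw [if_pos hi, Finset.sum_filter]
    apply Finset.sum_le_sum
    intro ρ' _
    split_ifs with h1 h2
    · exact le_rfl
    · exact absurd h1.2 h2
    · exact Nat.zero_le _
    · exact le_rfl
  · rw [if_neg hi, Nat.le_zero]
    apply Finset.sum_eq_zero
    intro ρ' _
    rw [if_neg]
    rintro ⟨h1, -⟩
    exact hi ⟨h1.1, h1.2.1⟩

theorem sum_P_succ {M : Type} [AddCommMonoid M] {b : Fin (k + 1) → ZMod n}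
    {F : Finset (Fin (k + 1))} {g : Equiv.Perm (Fin (k + 1))} (j : ℕ)
    (f : List (Fin (k + 1) × Fin (k + 1)) → M) :
    ∑ p ∈ P b F g (j + 1), f p = ∑ p ∈ P b F g j, ∑ a ∈ Ext b F (stt g p), f (a :: p) := by
  classical
  rw [P, Finset.sum_biUnion]
  · apply Finset.sum_congr rfl
    intro p _
    rw [Finset.sum_image]
    intro a _ c _ h
    exact (List.cons.inj h).1
  · intro p _ q _ hpq
    rw [Function.onFun, Finset.disjoint_left]
    intro l hl hl'
    simp only [Finset.mem_image] at hl hl'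
    obtain ⟨a, -, rfl⟩ := hl
    obtain ⟨c, -, h⟩ := hl'
    exact hpq (List.cons.inj h).2.symm

theorem path_le {b : Fin (k + 1) → ZMod n} {F : Finset (Fin (k + 1))}
    {g : Equiv.Perm (Fin (k + 1))} : ∀ (j s : ℕ),
    ∑ p ∈ P b F g j, CS b F s (stt g p) ≤ CS b F (s + j) (stt g []) := by
  intro j
  induction j with
  | zero => intro s; simp [P]
  | succ j ih =>
    intro s
    rw [sum_P_succ]
    refine le_trans ?_ ((ih (s + 1)).trans (by rw [add_assoc, add_comm 1 j]))
    apply Finset.sum_le_sum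
    intro p _
    exact CS_succ_ge s (stt g p)

/-- invariants of reachable states -/
structure Inv (b : Fin (k + 1) → ZMod n) (g : Equiv.Perm (Fin (k + 1))) (D j : ℕ) (st : St k) :
    Prop where
  hρ : st.2.1 ∈ st.2.2
  hlast : Fin.last k ∈ st.2.2
  hU : ∀ r ∉ st.2.2, st.1 r = g r
  hinj : ∀ r r', r ≠ st.2.1 → r' ≠ st.2.1 → col b st.1 r = col b st.1 r' → r = r'
  hcard : st.2.2.card ≤ 2 * j + 1
  hnb : (Nb b (st.1 st.2.1)).card ≤ D

theorem swap_col {b : Fin (k + 1) → ZMod n} {h : Equiv.Perm (Fin (k + 1))} {ρ i r : Fin (k + 1)}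
    (h1 : r ≠ ρ) (h2 : r ≠ i) : col b (h * Equiv.swap ρ i) r = col b h r := by
  rw [col, col, Equiv.Perm.mul_apply, Equiv.swap_apply_of_ne_of_ne h1 h2]

theorem swap_col_right {b : Fin (k + 1) → ZMod n} {h : Equiv.Perm (Fin (k + 1))}
    {ρ i : Fin (k + 1)} :
    col b (h * Equiv.swap ρ i) i = b (h ρ) + ((i : ℕ) : ZMod n) := by
  rw [col, Equiv.Perm.mul_apply, Equiv.swap_apply_right]

theorem swap_col_left {b : Fin (k + 1) → ZMod n} {h : Equiv.Perm (Fin (k + 1))}
    {ρ i : Fin (k + 1)} :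
    col b (h * Equiv.swap ρ i) ρ = b (h i) + ((ρ : ℕ) : ZMod n) := by
  rw [col, Equiv.Perm.mul_apply, Equiv.swap_apply_left]

theorem Good.inj_off {b : Fin (k + 1) → ZMod n} {F : Finset (Fin (k + 1))}
    {g : Equiv.Perm (Fin (k + 1))} {D j : ℕ} {st : St k} (hI : Inv b g D j st) {i : Fin (k + 1)}
    (hG : Good b F st i) :
    ∀ r r', r ≠ st.2.1 → r' ≠ st.2.1 →
      col b (st.1 * Equiv.swap st.2.1 i) r = col b (st.1 * Equiv.swap st.2.1 i) r' → r = r' := by
  intro r r' hr hr' he
  by_cases h1 : r = i <;> by_cases h2 : r' = i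
  · rw [h1, h2]
  · rw [h1, swap_col_right, swap_col hr' h2] at he
    exact absurd he (hG.2.2.1 r' hr' h2)
  · rw [h2, swap_col_right, swap_col hr h1] at he
    exact absurd he.symm (hG.2.2.1 r hr h1)
  · rw [swap_col hr h1, swap_col hr' h2] at he
    exact hI.hinj r r' hr hr' he

theorem Good.cases {b : Fin (k + 1) → ZMod n} {F : Finset (Fin (k + 1))}
    {g : Equiv.Perm (Fin (k + 1))} {D j : ℕ} {st : St k} (hI : Inv b g D j st) {i : Fin (k + 1)}
    (hG : Good b F st i) :
    Function.Injective (col b (st.1 * Equiv.swap st.2.1 i)) ∨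
    ∃ ρ', ρ' ∉ st.2.2 ∧ ρ' ≠ i ∧
      b (st.1 i) + ((st.2.1 : ℕ) : ZMod n) = b (st.1 ρ') + ((ρ' : ℕ) : ZMod n) := by
  by_cases hex : ∃ ρ', ρ' ∉ st.2.2 ∧ ρ' ≠ i ∧
      b (st.1 i) + ((st.2.1 : ℕ) : ZMod n) = b (st.1 ρ') + ((ρ' : ℕ) : ZMod n)
  · exact Or.inr hex
  · left
    have key : ∀ r, r ≠ st.2.1 → col b (st.1 * Equiv.swap st.2.1 i) st.2.1 ≠
        col b (st.1 * Equiv.swap st.2.1 i) r := by
      intro r hr he
      rw [swap_col_left] at he
      by_cases h1 : r = i
      · rw [h1, swap_col_right] at he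
        exact hG.2.2.2.2 he
      · rw [swap_col hr h1] at he
        by_cases h2 : r ∈ st.2.2
        · exact hG.2.2.2.1 r h2 hr he
        · exact hex ⟨r, h2, h1, he⟩
    intro r r' he
    by_cases h1 : r = st.2.1 <;> by_cases h2 : r' = st.2.1
    · rw [h1, h2]
    · rw [h1] at he; exact absurd he (key r' h2)
    · rw [h2] at he; exact absurd he.symm (key r h1)
    · exact Good.inj_off hI hG r r' h1 h2 he

theorem Inv.next {b : Fin (k + 1) → ZMod n} {F : Finset (Fin (k + 1))} {D : ℕ}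
    (hF : ∀ x ∈ F, ∀ t, Near b t x → (Nb b t).card ≤ D)
    {g : Equiv.Perm (Fin (k + 1))} {j : ℕ} {st : St k} (hI : Inv b g D j st)
    {a : Fin (k + 1) × Fin (k + 1)} (ha : a ∈ Ext b F st) : Inv b g D (j + 1) (nxt st a) := by
  classical
  simp only [Ext, Finset.mem_filter, Finset.mem_univ, true_and] at ha
  obtain ⟨hG, h1, h2, h3⟩ := ha
  have hne : a.2 ≠ st.2.1 := by
    intro h
    rw [h] at h1
    exact h1 hI.hρ
  refine ⟨?_, ?_, ?_, ?_, ?_, ?_⟩
  · exact Finset.mem_insert_of_mem (Finset.mem_insert_self _ _)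
  · exact Finset.mem_insert_of_mem (Finset.mem_insert_of_mem hI.hlast)
  · intro r hr
    simp only [nxt, Finset.mem_insert, not_or] at hr
    simp only [nxt]
    rw [Equiv.Perm.mul_apply, Equiv.swap_apply_of_ne_of_ne _ hr.1]
    · exact hI.hU r hr.2.2
    · rintro rfl
      exact hr.2.2 hI.hρ
  · intro r r' hr hr' he
    simp only [nxt] at hr hr' he
    have hc : col b (st.1 * Equiv.swap st.2.1 a.1) st.2.1 =
        col b (st.1 * Equiv.swap st.2.1 a.1) a.2 := by
      rw [swap_col_left, swap_col hne h2]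
      exact h3
    by_cases h4 : r = st.2.1 <;> by_cases h5 : r' = st.2.1
    · rw [h4, h5]
    · rw [h4, hc] at he
      exact absurd (Good.inj_off hI hG a.2 r' hne h5 he) (Ne.symm hr')
    · rw [h5, hc] at he
      exact absurd (Good.inj_off hI hG r a.2 h4 hne he) hr
    · exact Good.inj_off hI hG r r' h4 h5 he
  · simp only [nxt]
    refine (Finset.card_insert_le _ _).trans ?_
    have := Finset.card_insert_le a.2 st.2.2
    have := hI.hcard
    omega
  · simp only [nxt]
    rw [Equiv.Perm.mul_apply, Equiv.swap_apply_of_ne_of_ne hne h2]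
    exact hF _ hG.2.1 _ ⟨a.2, st.2.1, h3.symm⟩

theorem inv_P {b : Fin (k + 1) → ZMod n} {F : Finset (Fin (k + 1))} {D : ℕ}
    (hF : ∀ x ∈ F, ∀ t, Near b t x → (Nb b t).card ≤ D)
    {g : Equiv.Perm (Fin (k + 1))} (hg : g (Fin.last k) ∈ F)
    (hinj : ∀ r r', r ≠ Fin.last k → r' ≠ Fin.last k → col b g r = col b g r' → r = r') :
    ∀ j, ∀ p ∈ P b F g j, Inv b g D j (stt g p) := by
  classical
  intro j
  induction j with
  | zero =>
    intro p hp
    simp only [P, Finset.mem_singleton] at hp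
    subst hp
    refine ⟨?_, ?_, ?_, hinj, ?_, ?_⟩
    · simp [stt]
    · simp [stt]
    · intro r _
      rfl
    · simp [stt]
    · exact hF _ hg _ (Near.refl b _)
  | succ j ih =>
    intro p hp
    simp only [P, Finset.mem_biUnion, Finset.mem_image] at hp
    obtain ⟨q, hq, a, ha, rfl⟩ := hp
    exact Inv.next hF (ih q hq) ha

open Classical in
/-- the good rows -/
noncomputable def GS (b : Fin (k + 1) → ZMod n) (F : Finset (Fin (k + 1))) (st : St k) :
    Finset (Fin (k + 1)) := Finset.univ.filter fun i => Good b F st i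

theorem card_rows (F : Finset (Fin (k + 1))) (h : Equiv.Perm (Fin (k + 1))) :
    (Finset.univ.filter fun i => h i ∈ F).card = F.card := by
  classical
  rw [← Finset.card_map h.toEmbedding]
  congr 1
  ext x
  simp only [Finset.mem_map, Finset.mem_filter, Finset.mem_univ, true_and, Equiv.coe_toEmbedding]
  constructor
  · rintro ⟨a, ha, rfl⟩
    exact ha
  · intro hx
    exact ⟨h.symm x, by simpa using hx, by simp⟩

theorem good_count (hn : k < n) {b : Fin (k + 1) → ZMod n} {F : Finset (Fin (k + 1))} {D : ℕ}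
    (hD : 0 < D) (hF : ∀ x ∈ F, (Nb b x).card ≤ D)
    {g : Equiv.Perm (Fin (k + 1))} {j : ℕ} {st : St k} (hI : Inv b g D j st) :
    F.card ≤ (GS b F st).card + (4 * j + 3) * D := by
  classical
  set h := st.1 with hh
  set ρ := st.2.1 with hρ
  set U := st.2.2 with hU
  set B2 : Finset (Fin (k + 1)) := Finset.univ.filter fun i =>
    ∃ r, r ≠ ρ ∧ r ≠ i ∧ b (h ρ) + ((i : ℕ) : ZMod n) = col b h r with hB2
  set B3 : Finset (Fin (k + 1)) := Finset.univ.filter fun i =>
    h i ∈ F ∧ ∃ r ∈ U, r ≠ ρ ∧ b (h i) + ((ρ : ℕ) : ZMod n) = col b h r with hB3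
  set B4 : Finset (Fin (k + 1)) := Finset.univ.filter fun i =>
    b (h i) + ((ρ : ℕ) : ZMod n) = b (h ρ) + ((i : ℕ) : ZMod n) with hB4
  have hsub : (Finset.univ.filter fun i => h i ∈ F) ⊆ GS b F st ∪ (U ∪ (B2 ∪ (B3 ∪ B4))) := by
    intro i hi
    simp only [Finset.mem_filter, Finset.mem_univ, true_and] at hi
    by_cases h1 : i ∈ U
    · simp [h1]
    by_cases h2 : i ∈ B2
    · simp [h2]
    by_cases h3 : i ∈ B3
    · simp [h3]
    by_cases h4 : i ∈ B4
    · simp [h4]
    apply Finset.mem_union_left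
    simp only [hB2, hB3, hB4, Finset.mem_filter, Finset.mem_univ, true_and, not_exists,
      not_and] at h2 h3 h4
    simp only [GS, Finset.mem_filter, Finset.mem_univ, true_and]
    exact ⟨h1, hi, fun r hr hri => h2 r hr hri, fun r hr hrρ => h3 hi r hr hrρ, h4⟩
  have c2 : B2.card ≤ D := by
    have hs : B2 ⊆ (Nb b (h ρ)).biUnion fun w => Finset.univ.filter fun i : Fin (k + 1) =>
        b (h ρ) + ((i : ℕ) : ZMod n) = b w + (((h.symm w : Fin (k + 1)) : ℕ) : ZMod n) := by
      intro i hi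
      simp only [hB2, Finset.mem_filter, Finset.mem_univ, true_and] at hi
      obtain ⟨r, -, -, hr⟩ := hi
      simp only [Finset.mem_biUnion, Finset.mem_filter, Finset.mem_univ, true_and]
      refine ⟨h r, mem_Nb.2 ⟨r, i, hr.symm⟩, ?_⟩
      rw [Equiv.symm_apply_apply]
      exact hr
    refine (Finset.card_le_card hs).trans ?_
    refine (Finset.card_biUnion_le_card_mul _ _ 1 ?_).trans ?_
    · intro w _
      apply Finset.card_le_one.2
      intro x hx y hy
      simp only [Finset.mem_filter, Finset.mem_univ, true_and] at hx hy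
      exact row_inj hn (add_left_cancel (hx.trans hy.symm))
    · rw [mul_one]
      exact hI.hnb
  have c4 : B4.card ≤ D := by
    refine le_trans ?_ hI.hnb
    rw [← Finset.card_map h.toEmbedding]
    apply Finset.card_le_card
    intro x hx
    simp only [hB4, Finset.mem_map, Finset.mem_filter, Finset.mem_univ, true_and,
      Equiv.coe_toEmbedding] at hx
    obtain ⟨i, hi, rfl⟩ := hx
    exact mem_Nb.2 ⟨ρ, i, hi⟩
  have c3 : B3.card ≤ (2 * j) * D := by
    have hs : B3 ⊆ (U.erase ρ).biUnion fun r => Finset.univ.filter fun i : Fin (k + 1) =>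
        h i ∈ F ∧ b (h i) + ((ρ : ℕ) : ZMod n) = col b h r := by
      intro i hi
      simp only [hB3, Finset.mem_filter, Finset.mem_univ, true_and] at hi
      obtain ⟨h1, r, hr, hrρ, hr2⟩ := hi
      simp only [Finset.mem_biUnion, Finset.mem_filter, Finset.mem_univ, true_and,
        Finset.mem_erase]
      exact ⟨r, ⟨hrρ, hr⟩, h1, hr2⟩
    refine (Finset.card_le_card hs).trans ?_
    refine (Finset.card_biUnion_le_card_mul _ _ D ?_).trans ?_
    · intro r _
      by_cases hne : (Finset.univ.filter fun i : Fin (k + 1) =>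
        h i ∈ F ∧ b (h i) + ((ρ : ℕ) : ZMod n) = col b h r).Nonempty
      · obtain ⟨i0, hi0⟩ := hne
        simp only [Finset.mem_filter, Finset.mem_univ, true_and] at hi0
        refine le_trans ?_ (hF _ hi0.1)
        rw [← Finset.card_map h.toEmbedding]
        apply Finset.card_le_card
        intro x hx
        simp only [Finset.mem_map, Finset.mem_filter, Finset.mem_univ, true_and,
          Equiv.coe_toEmbedding] at hx
        obtain ⟨i, hi, rfl⟩ := hx
        exact mem_Nb.2 ⟨ρ, ρ, hi.2.trans hi0.2.symm⟩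
      · rw [Finset.not_nonempty_iff_eq_empty.1 hne]
        simp
    · apply Nat.mul_le_mul_right
      rw [Finset.card_erase_of_mem hI.hρ]
      have := hI.hcard
      omega
  have cU : U.card ≤ (2 * j + 1) * D := by
    refine hI.hcard.trans ?_
    exact Nat.le_mul_of_pos_right _ hD
  rw [← card_rows F h]
  refine (Finset.card_le_card hsub).trans ?_
  refine (Finset.card_union_le _ _).trans ?_
  have e1 := Finset.card_union_le U (B2 ∪ (B3 ∪ B4))
  have e2 := Finset.card_union_le B2 (B3 ∪ B4)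
  have e3 := Finset.card_union_le B3 B4
  have e4 : (4 * j + 3) * D = (2 * j + 1) * D + D + (2 * j) * D + D := by ring
  omega

open Classical in
/-- pool tokens blocked at the row `ρ` -/
noncomputable def Blk (b : Fin (k + 1) → ZMod n) (F : Finset (Fin (k + 1)))
    (g : Equiv.Perm (Fin (k + 1))) (ρ : Fin (k + 1)) : Finset (Fin (k + 1)) :=
  F.filter fun x => ∃ r, r ≠ Fin.last k ∧ b x + ((ρ : ℕ) : ZMod n) = col b g r

open Classical in
/-- bad rows -/
noncomputable def BR (b : Fin (k + 1) → ZMod n) (F : Finset (Fin (k + 1)))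
    (g : Equiv.Perm (Fin (k + 1))) : Finset (Fin (k + 1)) :=
  Finset.univ.filter fun ρ => F.card ≤ 4 * (Blk b F g ρ).card

theorem sum_Blk (hn : k < n) {b : Fin (k + 1) → ZMod n} {F : Finset (Fin (k + 1))} {D : ℕ}
    (hF : ∀ x ∈ F, (Nb b x).card ≤ D) (g : Equiv.Perm (Fin (k + 1))) :
    ∑ ρ, (Blk b F g ρ).card ≤ F.card * D := by
  classical
  simp only [Blk, Finset.card_filter]
  rw [Finset.sum_comm, ← smul_eq_mul]
  apply Finset.sum_le_card_nsmul
  intro x hx
  rw [← Finset.card_filter]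
  refine le_trans ?_ (hF x hx)
  have hs : (Finset.univ.filter fun ρ : Fin (k + 1) => ∃ r, r ≠ Fin.last k ∧
      b x + ((ρ : ℕ) : ZMod n) = col b g r) ⊆
      (Nb b x).biUnion fun w => Finset.univ.filter fun ρ : Fin (k + 1) =>
        b x + ((ρ : ℕ) : ZMod n) = b w + (((g.symm w : Fin (k + 1)) : ℕ) : ZMod n) := by
    intro ρ hρ
    simp only [Finset.mem_filter, Finset.mem_univ, true_and] at hρ
    obtain ⟨r, -, hr⟩ := hρ
    simp only [Finset.mem_biUnion, Finset.mem_filter, Finset.mem_univ, true_and]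
    refine ⟨g r, mem_Nb.2 ⟨r, ρ, hr.symm⟩, ?_⟩
    rw [Equiv.symm_apply_apply]
    exact hr
  refine (Finset.card_le_card hs).trans ?_
  refine (Finset.card_biUnion_le_card_mul _ _ 1 ?_).trans (by rw [mul_one])
  intro w _
  apply Finset.card_le_one.2
  intro x hx y hy
  simp only [Finset.mem_filter, Finset.mem_univ, true_and] at hx hy
  exact row_inj hn (add_left_cancel (hx.trans hy.symm))

theorem card_BR (hn : k < n) {b : Fin (k + 1) → ZMod n} {F : Finset (Fin (k + 1))} {D : ℕ}
    (hF : ∀ x ∈ F, (Nb b x).card ≤ D) (hF0 : 0 < F.card) (g : Equiv.Perm (Fin (k + 1))) :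
    (BR b F g).card ≤ 4 * D := by
  classical
  have h1 : (BR b F g).card * F.card ≤ 4 * ∑ ρ, (Blk b F g ρ).card := by
    rw [Finset.mul_sum, ← smul_eq_mul]
    refine le_trans (Finset.card_nsmul_le_sum (BR b F g) (fun ρ => 4 * (Blk b F g ρ).card)
      F.card ?_) (Finset.sum_le_sum_of_subset (Finset.subset_univ _))
    intro ρ hρ
    simpa [BR] using hρ
  have h2 := sum_Blk hn hF g
  have h3 : (BR b F g).card * F.card ≤ (4 * D) * F.card := by
    calc (BR b F g).card * F.card ≤ 4 * (F.card * D) := h1.trans (Nat.mul_le_mul_left _ h2)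
      _ = (4 * D) * F.card := by ring
  exact Nat.le_of_mul_le_mul_right h3 hF0

open Classical in
/-- successful choices -/
noncomputable def SS (b : Fin (k + 1) → ZMod n) (F : Finset (Fin (k + 1))) (st : St k) :
    Finset (Fin (k + 1)) :=
  (GS b F st).filter fun i => Function.Injective (col b (st.1 * Equiv.swap st.2.1 i))

theorem SS_le {b : Fin (k + 1) → ZMod n} {F : Finset (Fin (k + 1))} (st : St k) :
    (SS b F st).card ≤ CS b F 0 st := by
  apply C_zero
  intro i hi
  simp only [SS, GS, Finset.mem_filter, Finset.mem_univ, true_and] at hi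
  exact ⟨hi.1.1, hi.1.2.1, hi.2⟩

theorem GS_le {b : Fin (k + 1) → ZMod n} {F : Finset (Fin (k + 1))}
    {g : Equiv.Perm (Fin (k + 1))} {D j : ℕ} {st : St k} (hI : Inv b g D j st) :
    (GS b F st).card ≤ (Ext b F st).card + (SS b F st).card := by
  classical
  have h1 : GS b F st ⊆ (Ext b F st).image Prod.fst ∪ SS b F st := by
    intro i hi
    have hG : Good b F st i := by simpa [GS] using hi
    rcases Good.cases hI hG with h | ⟨ρ', h1, h2, h3⟩
    · apply Finset.mem_union_right
      simp only [SS, Finset.mem_filter]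
      exact ⟨hi, h⟩
    · apply Finset.mem_union_left
      simp only [Finset.mem_image, Ext, Finset.mem_filter, Finset.mem_univ, true_and]
      exact ⟨(i, ρ'), ⟨hG, h1, h2, h3⟩, rfl⟩
  refine (Finset.card_le_card h1).trans ((Finset.card_union_le _ _).trans ?_)
  exact Nat.add_le_add_right Finset.card_image_le _

theorem GS_le' {b : Fin (k + 1) → ZMod n} {F : Finset (Fin (k + 1))}
    {g : Equiv.Perm (Fin (k + 1))} {D j : ℕ} {st : St k} (hI : Inv b g D j st) :
    (GS b F st).card ≤ (Blk b F g st.2.1).card + (SS b F st).card := by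
  classical
  have h1 : GS b F st ⊆ (Finset.univ.filter fun i => st.1 i ∈ Blk b F g st.2.1) ∪ SS b F st := by
    intro i hi
    have hG : Good b F st i := by simpa [GS] using hi
    rcases Good.cases hI hG with h | ⟨ρ', h1, h2, h3⟩
    · apply Finset.mem_union_right
      simp only [SS, Finset.mem_filter]
      exact ⟨hi, h⟩
    · apply Finset.mem_union_left
      simp only [Blk, Finset.mem_filter, Finset.mem_univ, true_and]
      refine ⟨hG.2.1, ρ', ?_, ?_⟩
      · rintro rfl
        exact h1 hI.hlast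
      · rw [col, ← hI.hU ρ' h1]
        exact h3
  refine (Finset.card_le_card h1).trans ((Finset.card_union_le _ _).trans ?_)
  rw [card_rows]

theorem end_count (hn : k < n) {b : Fin (k + 1) → ZMod n} {F : Finset (Fin (k + 1))} {D : ℕ}
    (hF : ∀ x ∈ F, ∀ t, Near b t x → (Nb b t).card ≤ D)
    {g : Equiv.Perm (Fin (k + 1))} (hg : g (Fin.last k) ∈ F)
    (hinj : ∀ r r', r ≠ Fin.last k → r' ≠ Fin.last k → col b g r = col b g r' → r = r') :
    ∀ j ρ', ((P b F g j).filter fun p => (stt g p).2.1 = ρ').card ≤ D ^ j := by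
  classical
  intro j
  induction j with
  | zero =>
    intro ρ'
    rw [pow_zero]
    refine (Finset.card_filter_le _ _).trans ?_
    simp [P]
  | succ j ih =>
    intro ρ'
    -- the end row of the truncated path is determined by the token moved
    have key : ((P b F g (j + 1)).filter fun p => (stt g p).2.1 = ρ').card ≤
        ∑ ρ : Fin (k + 1), ∑ x : Fin (k + 1),
          (if Near b (g ρ') x ∧ x ∈ F ∧ b (g ρ') + ((ρ' : ℕ) : ZMod n) = b x + ((ρ : ℕ) : ZMod n)
            then 1 else 0) * D ^ j := by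
      rw [Finset.card_filter, sum_P_succ]
      rw [← Finset.sum_fiberwise (P b F g j) (fun p => (stt g p).2.1)]
      apply Finset.sum_le_sum
      intro ρ _
      have h1 : ∀ p ∈ (P b F g j).filter (fun p => (stt g p).2.1 = ρ),
          ∑ a ∈ Ext b F (stt g p), (if (stt g (a :: p)).2.1 = ρ' then 1 else 0) ≤
          ∑ x : Fin (k + 1), (if Near b (g ρ') x ∧ x ∈ F ∧
            b (g ρ') + ((ρ' : ℕ) : ZMod n) = b x + ((ρ : ℕ) : ZMod n) then 1 else 0) := by
        intro p hp
        rw [Finset.mem_filter] at hp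
        have hI := inv_P hF hg hinj j p hp.1
        rw [← Finset.card_filter, ← Finset.card_filter]
        refine Finset.card_le_card_of_injOn (fun a => (stt g p).1 a.1) ?_ ?_
        · intro a ha
          have ha := Finset.mem_filter.1 (Finset.mem_coe.1 ha)
          apply Finset.mem_coe.2
          simp only [Ext, Finset.mem_filter, Finset.mem_univ, true_and, stt, nxt] at ha ⊢
          obtain ⟨⟨hG, h2, h3, h4⟩, rfl⟩ := ha
          rw [hI.hU _ h2] at h4
          rw [hp.2] at h4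
          exact ⟨⟨a.2, ρ, h4.symm⟩, hG.2.1, h4.symm⟩
        · intro a ha c hc hac
          have ha := Finset.mem_filter.1 (Finset.mem_coe.1 ha)
          have hc := Finset.mem_filter.1 (Finset.mem_coe.1 hc)
          simp only [stt, nxt] at ha hc hac
          exact Prod.ext ((stt g p).1.injective hac) (ha.2.trans hc.2.symm)
      refine (Finset.sum_le_sum h1).trans ?_
      rw [Finset.sum_const, smul_eq_mul, mul_comm, ← Finset.sum_mul]
      exact Nat.mul_le_mul_left _ (ih ρ)
    refine key.trans ?_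
    simp only [← Finset.sum_mul]
    rw [pow_succ, mul_comm (D ^ j) D]
    apply Nat.mul_le_mul_right
    by_cases hne : ∃ x ∈ F, Near b (g ρ') x
    · obtain ⟨x0, hx0, hx1⟩ := hne
      refine le_trans ?_ (hF x0 hx0 _ hx1)
      refine le_trans ?_ (pair_count hn b (g ρ') ρ')
      apply Finset.sum_le_sum
      intro ρ _
      apply Finset.sum_le_sum
      intro x _
      split_ifs with h1 h2
      · exact le_rfl
      · exact absurd h1.2.2 h2
      · exact Nat.zero_le _
      · exact le_rfl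
    · rw [Finset.sum_eq_zero]
      · exact Nat.zero_le _
      · intro ρ _
        apply Finset.sum_eq_zero
        intro x _
        rw [if_neg]
        rintro ⟨h1, h2, -⟩
        exact hne ⟨x, h2, h1⟩

theorem lower (hn : k < n) {b : Fin (k + 1) → ZMod n} {F : Finset (Fin (k + 1))} {D S : ℕ}
    (hD : 0 < D) (hF : ∀ x ∈ F, ∀ t, Near b t x → (Nb b t).card ≤ D)
    (hf1 : 4 * ((4 * S + 3) * D) ≤ F.card)
    (hf2 : 2 ^ S * (8 * D ^ (S + 1)) ≤ F.card ^ S)
    {g : Equiv.Perm (Fin (k + 1))} (hg : g (Fin.last k) ∈ F)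
    (hinj : ∀ r r', r ≠ Fin.last k → r' ≠ Fin.last k → col b g r = col b g r' → r = r') :
    ∃ s ≤ S, 2 ^ (s + 1) * D ^ s ≤ C b F s g (Fin.last k) {Fin.last k} := by
  classical
  by_contra! hcon
  set f := F.card with hf
  have hF' : ∀ x ∈ F, (Nb b x).card ≤ D := fun x hx => hF x hx x (Near.refl b x)
  have hfD : 4 * D ≤ f := by
    refine le_trans ?_ hf1
    have : 1 * D ≤ (4 * S + 3) * D := Nat.mul_le_mul_right _ (by omega)
    omega
  have hf8 : 8 ≤ f := by
    refine le_trans ?_ hf1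
    have : 3 * 1 ≤ (4 * S + 3) * D := Nat.mul_le_mul (by omega) hD
    omega
  have hpow : ∀ j, 8 * (4 * D) ^ j ≤ f ^ (j + 1) := by
    intro j
    rw [pow_succ, mul_comm]
    exact Nat.mul_le_mul (Nat.pow_le_pow_left hfD j) hf8
  set N : ℕ → ℕ := fun j => ∑ p ∈ P b F g j, (SS b F (stt g p)).card with hN
  have hNC : ∀ j, N j ≤ C b F j g (Fin.last k) {Fin.last k} := by
    intro j
    have h1 := path_le (b := b) (F := F) (g := g) j 0
    rw [zero_add] at h1
    refine le_trans ?_ h1
    exact Finset.sum_le_sum fun p _ => SS_le _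
  have hNlt : ∀ j ≤ S, N j < 2 ^ (j + 1) * D ^ j := fun j hj => (hNC j).trans_lt (hcon j hj)
  -- first estimate
  have hgood : ∀ j ≤ S, ∀ p ∈ P b F g j, 3 * f ≤ 4 * (GS b F (stt g p)).card := by
    intro j hj p hp
    have hI := inv_P hF hg hinj j p hp
    have h1 := good_count hn hD hF' hI
    have h2 : (4 * j + 3) * D ≤ (4 * S + 3) * D := Nat.mul_le_mul_right _ (by omega)
    omega
  have hstep : ∀ j ≤ S, 3 * f * (P b F g j).card ≤ 4 * ((P b F g (j + 1)).card + N j) := by
    intro j hj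
    have h1 : (P b F g (j + 1)).card = ∑ p ∈ P b F g j, (Ext b F (stt g p)).card := by
      rw [Finset.card_eq_sum_ones, sum_P_succ]
      apply Finset.sum_congr rfl
      intro p _
      rw [Finset.card_eq_sum_ones]
    rw [h1, hN, ← Finset.sum_add_distrib, Finset.mul_sum, mul_comm (3 * f), ← smul_eq_mul]
    apply Finset.card_nsmul_le_sum
    intro p hp
    have hI := inv_P hF hg hinj j p hp
    have h2 := GS_le (F := F) hI
    have h3 := hgood j hj p hp
    omega
  have hgrow : ∀ j ≤ S, f ^ j ≤ 2 ^ j * (P b F g j).card := by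
    intro j
    induction j with
    | zero => intro _; simp [P]
    | succ j ih =>
      intro hj
      have h1 := ih (by omega)
      have h2 := hstep j (by omega)
      have h3 := hNlt j (by omega)
      have h4 := hpow j
      have h5 : 3 * f ^ (j + 1) ≤ 3 * f * (2 ^ j * (P b F g j).card) := by
        calc 3 * f ^ (j + 1) = 3 * f * f ^ j := by ring
          _ ≤ _ := Nat.mul_le_mul_left _ h1
      have h6 : 3 * f * (2 ^ j * (P b F g j).card) ≤
          2 ^ j * (4 * ((P b F g (j + 1)).card + N j)) := by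
        calc 3 * f * (2 ^ j * (P b F g j).card) = 2 ^ j * (3 * f * (P b F g j).card) := by ring
          _ ≤ _ := Nat.mul_le_mul_left _ h2
      have h7 : 2 ^ j * (4 * ((P b F g (j + 1)).card + N j)) =
          2 * (2 ^ (j + 1) * (P b F g (j + 1)).card) + 2 ^ j * 4 * N j := by ring
      have h8 : 2 ^ j * 4 * N j ≤ 8 * (4 * D) ^ j := by
        calc 2 ^ j * 4 * N j ≤ 2 ^ j * 4 * (2 ^ (j + 1) * D ^ j) := Nat.mul_le_mul_left _ h3.le
          _ = 8 * ((2 * 2) * D) ^ j := by rw [mul_pow (2 * 2), mul_pow]; ring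
          _ = 8 * (4 * D) ^ j := by norm_num
      omega
  -- second estimate
  have hlast : f * (P b F g S).card ≤ 2 * N S + f * (4 * D * D ^ S) := by
    have h1 : ∀ p ∈ (P b F g S).filter (fun p => (stt g p).2.1 ∉ BR b F g),
        f ≤ 2 * (SS b F (stt g p)).card := by
      intro p hp
      rw [Finset.mem_filter] at hp
      have hI := inv_P hF hg hinj S p hp.1
      have h2 := GS_le' (F := F) hI
      have h3 := hgood S le_rfl p hp.1
      have h4 := hp.2
      simp only [BR, Finset.mem_filter, Finset.mem_univ, true_and, not_le] at h4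
      omega
    have h2 : ((P b F g S).filter (fun p => (stt g p).2.1 ∈ BR b F g)).card ≤ 4 * D * D ^ S := by
      have h3 : ∀ p ∈ (P b F g S).filter (fun p => (stt g p).2.1 ∈ BR b F g),
          (stt g p).2.1 ∈ BR b F g := fun p hp => (Finset.mem_filter.1 hp).2
      rw [Finset.card_eq_sum_card_fiberwise h3]
      refine (Finset.sum_le_card_nsmul _ _ (D ^ S) ?_).trans ?_
      · intro ρ _
        refine le_trans (Finset.card_le_card ?_) (end_count hn hF hg hinj S ρ)
        intro p hp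
        simp only [Finset.mem_filter] at hp ⊢
        exact ⟨hp.1.1, hp.2⟩
      · rw [smul_eq_mul]
        exact Nat.mul_le_mul_right _ (card_BR hn hF' (by omega) g)
    have h3 : f * ((P b F g S).filter (fun p => (stt g p).2.1 ∉ BR b F g)).card ≤ 2 * N S := by
      rw [hN, Finset.mul_sum, mul_comm, ← smul_eq_mul]
      refine (Finset.card_nsmul_le_sum _ (fun p => 2 * (SS b F (stt g p)).card) f h1).trans ?_
      exact Finset.sum_le_sum_of_subset (Finset.filter_subset _ _)
    have h4 := Finset.card_filter_add_card_filter_not (s := P b F g S)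
      (fun p => (stt g p).2.1 ∈ BR b F g)
    rw [← h4, mul_add, add_comm]
    exact Nat.add_le_add h3 (Nat.mul_le_mul_left _ h2)
  have h1 := hgrow S le_rfl
  have h2 := hNlt S le_rfl
  have h3 := hpow S
  have h5 : f ^ (S + 1) ≤ f * (2 ^ S * (P b F g S).card) := by
    calc f ^ (S + 1) = f * f ^ S := by ring
      _ ≤ _ := Nat.mul_le_mul_left _ h1
  have h6 : f * (2 ^ S * (P b F g S).card) ≤ 2 ^ S * (2 * N S + f * (4 * D * D ^ S)) := by
    calc f * (2 ^ S * (P b F g S).card) = 2 ^ S * (f * (P b F g S).card) := by ring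
      _ ≤ _ := Nat.mul_le_mul_left _ hlast
  have h7 : 2 * (f * (2 ^ S * (4 * D * D ^ S))) ≤ f ^ (S + 1) := by
    calc 2 * (f * (2 ^ S * (4 * D * D ^ S))) = f * (2 ^ S * (8 * D ^ (S + 1))) := by ring
      _ ≤ f * f ^ S := Nat.mul_le_mul_left _ hf2
      _ = f ^ (S + 1) := by ring
  have h8 : 2 ^ S * (2 * N S) * 2 < 8 * (4 * D) ^ S := by
    calc 2 ^ S * (2 * N S) * 2 < 2 ^ S * (2 * (2 ^ (S + 1) * D ^ S)) * 2 := by
          have : 0 < 2 ^ S := by positivity
          apply Nat.mul_lt_mul_of_pos_right _ (by norm_num)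
          exact Nat.mul_lt_mul_of_pos_left (by omega) this
      _ = 8 * ((2 * 2) * D) ^ S := by rw [mul_pow (2 * 2), mul_pow]; ring
      _ = 8 * (4 * D) ^ S := by norm_num
  have h9 : 2 ^ S * (2 * N S + f * (4 * D * D ^ S)) =
      2 ^ S * (2 * N S) + f * (2 ^ S * (4 * D * D ^ S)) := by ring
  omega

open Classical in
/-- hand states with hand `z` -/
noncomputable def Om (b : Fin (k + 1) → ZMod n) (z : Fin (k + 1)) :
    Finset (Equiv.Perm (Fin (k + 1))) :=
  Finset.univ.filter fun g => g (Fin.last k) = z ∧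
    ∀ r r', r ≠ Fin.last k → r' ≠ Fin.last k → col b g r = col b g r' → r = r'

theorem pool_sum (hn : k < n) {b : Fin (k + 1) → ZMod n} {F : Finset (Fin (k + 1))} {D S : ℕ}
    (hD : 0 < D) (hF : ∀ x ∈ F, ∀ t, Near b t x → (Nb b t).card ≤ D)
    (hf1 : 4 * ((4 * S + 3) * D) ≤ F.card)
    (hf2 : 2 ^ S * (8 * D ^ (S + 1)) ≤ F.card ^ S) :
    ∑ z ∈ F, (Om b z).card ≤ F.card * (T b).card := by
  classical
  have hF' : ∀ x ∈ F, (Nb b x).card ≤ D := fun x hx => hF x hx x (Near.refl b x)
  -- the union of the Om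
  set A : Finset (Equiv.Perm (Fin (k + 1))) := F.biUnion (Om b) with hA
  have hAc : ∑ z ∈ F, (Om b z).card = A.card := by
    rw [hA, Finset.card_biUnion]
    intro x _ y _ hxy
    rw [Function.onFun, Finset.disjoint_left]
    intro g hg hg'
    simp only [Om, Finset.mem_filter, Finset.mem_univ, true_and] at hg hg'
    exact hxy (hg.1.symm.trans hg'.1)
  rw [hAc]
  have h1 : ∀ g ∈ A, 2 ^ (S + 1) * D ^ S ≤
      ∑ s ∈ Finset.range (S + 1), 2 ^ (S - s) * D ^ (S - s) * C b F s g (Fin.last k) {Fin.last k} := by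
    intro g hg
    simp only [hA, Om, Finset.mem_biUnion, Finset.mem_filter, Finset.mem_univ, true_and] at hg
    obtain ⟨z, hz, hgz, hinj⟩ := hg
    obtain ⟨s, hs, hC⟩ := lower hn hD hF hf1 hf2 (hgz ▸ hz) hinj
    have h2 : 2 ^ (S + 1) * D ^ S = 2 ^ (S - s) * D ^ (S - s) * (2 ^ (s + 1) * D ^ s) := by
      calc 2 ^ (S + 1) * D ^ S = 2 ^ ((S - s) + (s + 1)) * D ^ ((S - s) + s) := by
            congr 2 <;> omega
        _ = _ := by rw [pow_add, pow_add]; ring
    rw [h2]
    refine (Nat.mul_le_mul_left _ hC).trans ?_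
    exact Finset.single_le_sum (f := fun s => 2 ^ (S - s) * D ^ (S - s) *
      C b F s g (Fin.last k) {Fin.last k}) (fun _ _ => Nat.zero_le _)
      (Finset.mem_range.2 (by omega))
  have h2 : A.card * (2 ^ (S + 1) * D ^ S) ≤
      ∑ s ∈ Finset.range (S + 1), 2 ^ (S - s) * D ^ (S - s) * (F.card * (T b).card * D ^ s) := by
    rw [← smul_eq_mul]
    refine (Finset.card_nsmul_le_sum _ _ _ h1).trans ?_
    rw [Finset.sum_comm]
    apply Finset.sum_le_sum
    intro s _
    rw [← Finset.mul_sum]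
    apply Nat.mul_le_mul_left
    refine le_trans ?_ (upper hn hF' s)
    apply Finset.sum_le_sum_of_subset
    intro g hg
    simp only [hA, Om, Finset.mem_biUnion, Finset.mem_filter, Finset.mem_univ, true_and] at hg ⊢
    obtain ⟨z, hz, hgz, -⟩ := hg
    exact hgz ▸ hz
  have h3 : ∑ s ∈ Finset.range (S + 1), 2 ^ (S - s) * D ^ (S - s) *
      (F.card * (T b).card * D ^ s) = F.card * (T b).card * D ^ S *
      ∑ s ∈ Finset.range (S + 1), 2 ^ s := by
    rw [← Finset.sum_range_reflect (fun s => 2 ^ s), Finset.mul_sum]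
    apply Finset.sum_congr rfl
    intro s hs
    rw [Finset.mem_range] at hs
    have h4 : D ^ S = D ^ (S - s) * D ^ s := by rw [← pow_add]; congr 1; omega
    have h5 : S + 1 - 1 - s = S - s := by omega
    rw [h5, h4]
    ring
  have h4 : ∑ s ∈ Finset.range (S + 1), 2 ^ s ≤ 2 ^ (S + 1) := by
    rw [Nat.geomSum_eq (le_refl 2)]
    simp
  have h5 : A.card * (2 ^ (S + 1) * D ^ S) ≤ F.card * (T b).card * (2 ^ (S + 1) * D ^ S) := by
    refine h2.trans ?_
    rw [h3]
    calc F.card * (T b).card * D ^ S * ∑ s ∈ Finset.range (S + 1), 2 ^ s ≤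
          F.card * (T b).card * D ^ S * 2 ^ (S + 1) := Nat.mul_le_mul_left _ h4
      _ = _ := by ring
  exact Nat.le_of_mul_le_mul_right h5 (by positivity)

theorem exists_le_T (hn : k < n) {b : Fin (k + 1) → ZMod n} {F : Finset (Fin (k + 1))} {D S : ℕ}
    (hD : 0 < D) (hF : ∀ x ∈ F, ∀ t, Near b t x → (Nb b t).card ≤ D)
    (hf1 : 4 * ((4 * S + 3) * D) ≤ F.card)
    (hf2 : 2 ^ S * (8 * D ^ (S + 1)) ≤ F.card ^ S) :
    ∃ z, (Om b z).card ≤ (T b).card := by
  by_contra! h
  have hne : F.Nonempty := by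
    rw [← Finset.card_pos]
    have : 3 * 1 ≤ (4 * S + 3) * D := Nat.mul_le_mul (by omega) hD
    omega
  have h1 := pool_sum hn hD hF hf1 hf2
  have h2 : F.card * (T b).card < ∑ z ∈ F, (Om b z).card := by
    rw [← smul_eq_mul, ← Finset.sum_const]
    exact Finset.sum_lt_sum_of_nonempty hne fun z _ => h z
  omega

/-- a placement of the tokens other than `z`, together with `z` on the last row -/
def lift (z : Fin (k + 1)) (π : Equiv.Perm (Fin k)) : Equiv.Perm (Fin (k + 1)) :=
  finSuccEquivLast.trans ((Equiv.optionCongr π).trans (finSuccEquiv' z).symm)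

theorem lift_last (z : Fin (k + 1)) (π : Equiv.Perm (Fin k)) : lift z π (Fin.last k) = z := by
  simp [lift]

theorem lift_castSucc (z : Fin (k + 1)) (π : Equiv.Perm (Fin k)) (i : Fin k) :
    lift z π i.castSucc = z.succAbove (π i) := by
  simp [lift]

theorem Phi_le_Om (b : Fin (k + 1) → ZMod n) (z : Fin (k + 1)) :
    Phi n k (b ∘ z.succAbove) ≤ (Om b z).card := by
  classical
  rw [Phi, Nat.card_eq_fintype_card, Fintype.card_subtype]
  refine Finset.card_le_card_of_injOn (lift z) ?_ ?_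
  · intro π hπ
    have hπ := (Finset.mem_filter.1 (Finset.mem_coe.1 hπ)).2
    apply Finset.mem_coe.2
    simp only [Om, Finset.mem_filter, Finset.mem_univ, true_and]
    refine ⟨lift_last z π, ?_⟩
    intro r r' hr hr' h
    obtain ⟨i, rfl⟩ := Fin.exists_castSucc_eq.2 hr
    obtain ⟨i', rfl⟩ := Fin.exists_castSucc_eq.2 hr'
    rw [col, col, lift_castSucc, lift_castSucc] at h
    congr 1
    apply hπ
    simp only [Function.comp, Nat.cast_add, Nat.cast_one]
    simp only [Fin.val_castSucc] at h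
    rw [← add_assoc, ← add_assoc, h]
  · intro π _ π' _ h
    ext i
    congr 1
    apply Fin.succAbove_right_injective (p := z)
    rw [← lift_castSucc, ← lift_castSucc, h]

theorem T_eq_Phi (b : Fin (k + 1) → ZMod n) : (T b).card = Phi n (k + 1) b := by
  classical
  rw [Phi, Nat.card_eq_fintype_card, Fintype.card_subtype, T]
  congr 1
  apply Finset.filter_congr
  intro π _
  have h1 : (fun i : Fin (k + 1) => b (π i) + (((i : ℕ) + 1 : ℕ) : ZMod n)) =
      (fun x => x + 1) ∘ col b π := by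
    funext i
    simp [col, add_assoc]
  rw [h1]
  exact ((add_left_injective (1 : ZMod n)).of_comp_iff _).symm

/-- no token within distance `k` after `z` -/
theorem Om_le_T_of_free {b : Fin (k + 1) → ZMod n} {z : Fin (k + 1)}
    (hz : ∀ w, ∀ d : ℕ, 1 ≤ d → d ≤ k → b w ≠ b z + (d : ZMod n)) :
    (Om b z).card ≤ (T b).card := by
  classical
  apply Finset.card_le_card
  intro g hg
  simp only [Om, T, Finset.mem_filter, Finset.mem_univ, true_and] at hg ⊢
  obtain ⟨hgz, hinj⟩ := hg
  have key : ∀ r, r ≠ Fin.last k → col b g r ≠ col b g (Fin.last k) := by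
    intro r hr h
    rw [col, col, hgz, Fin.val_last] at h
    have h1 : (r : ℕ) < k := by
      have := Fin.lt_last_iff_ne_last.2 hr
      exact this
    apply hz (g r) (k - r) (by omega) (by omega)
    rw [Nat.cast_sub h1.le, ← add_sub_assoc, ← h, add_sub_cancel_right]
  intro r r' h
  by_cases hr : r = Fin.last k
  · by_cases hr' : r' = Fin.last k
    · rw [hr, hr']
    · subst hr
      exact absurd h.symm (key r' hr')
  · by_cases hr' : r' = Fin.last k
    · subst hr'
      exact absurd h (key r hr)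
    · exact hinj r r' hr hr' h

/-- the tokens within distance `R` from `p` -/
def InBall (b : Fin (k + 1) → ZMod n) (p : ZMod n) (R : ℕ) (w : Fin (k + 1)) : Prop :=
  ∃ d : ℤ, d.natAbs ≤ R ∧ b w = p + (d : ZMod n)

open Classical in
noncomputable def Bl (b : Fin (k + 1) → ZMod n) (p : ZMod n) (R : ℕ) : Finset (Fin (k + 1)) :=
  Finset.univ.filter fun w => InBall b p R w

theorem mem_Bl {b : Fin (k + 1) → ZMod n} {p : ZMod n} {R : ℕ} {w : Fin (k + 1)} :
    w ∈ Bl b p R ↔ InBall b p R w := by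
  simp [Bl]

theorem Near.inBall {b : Fin (k + 1) → ZMod n} {u v : Fin (k + 1)} (h : Near b u v) {p : ZMod n}
    {R : ℕ} (hv : InBall b p R v) : InBall b p (R + k) u := by
  obtain ⟨r, r', h⟩ := h
  obtain ⟨d, hd, hv⟩ := hv
  refine ⟨d + ((r' : ℤ) - (r : ℤ)), ?_, ?_⟩
  · have h1 := r.2
    have h2 := r'.2
    omega
  · push_cast
    rw [← add_assoc, ← hv]
    linear_combination h

/-- if every token has a token within distance `k` after it then so has every point -/
theorem ball_nonempty [NeZero n] {b : Fin (k + 1) → ZMod n}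
    (hb : ∀ z, ∃ w, ∃ d : ℕ, 1 ≤ d ∧ d ≤ k ∧ b w = b z + (d : ZMod n)) (p : ZMod n) :
    (Bl b p k).Nonempty := by
  classical
  obtain ⟨w, -, hw⟩ := Finset.exists_min_image (Finset.univ : Finset (Fin (k + 1)))
    (fun w => (p - b w).val) ⟨0, Finset.mem_univ _⟩
  obtain ⟨w', d, hd1, hdk, hw'⟩ := hb w
  have h1 := hw w' (Finset.mem_univ _)
  by_cases hlt : (p - b w).val < d
  · refine ⟨w, mem_Bl.2 ⟨-((p - b w).val : ℤ), ?_, ?_⟩⟩
    · omega
    · push_cast
      rw [ZMod.natCast_val, ZMod.cast_id]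
      ring
  · exfalso
    have h2 : p - b w' = (((p - b w).val - d : ℕ) : ZMod n) := by
      rw [Nat.cast_sub (by omega), ZMod.natCast_val, ZMod.cast_id, hw']
      ring
    have h3 : (p - b w').val = (p - b w).val - d := by
      rw [h2]
      apply ZMod.val_cast_of_lt
      have := ZMod.val_lt (p - b w)
      omega
    omega

theorem centre_inj {b : Fin (k + 1) → ZMod n} {W P R : ℕ} (hW : 2 * R + 1 ≤ W) (hP : P * W ≤ n)
    {c c' : ℕ} (hc' : c' < P) {x : Fin (k + 1)} {r r' : ℕ} (hr : r ≤ R)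
    (hr' : r' ≤ R) (h : InBall b ((c * W : ℕ) : ZMod n) r x)
    (h' : InBall b ((c' * W : ℕ) : ZMod n) r' x) : ¬ c < c' := by
  intro hlt
  obtain ⟨d, hd, h⟩ := h
  obtain ⟨d', hd', h'⟩ := h'
  have h1 : (((((c' * W : ℕ) : ℤ) - ((c * W : ℕ) : ℤ) + d' - d : ℤ)) : ZMod n) = 0 := by
    push_cast
    push_cast at h h'
    linear_combination h - h'
  rw [ZMod.intCast_zmod_eq_zero_iff_dvd] at h1
  have h2 : (c + 1) * W ≤ c' * W := Nat.mul_le_mul_right _ hlt
  have h3 : (c' + 1) * W ≤ P * W := Nat.mul_le_mul_right _ hc'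
  rw [add_mul, one_mul] at h2 h3
  have h4 := Int.le_of_dvd (by omega) h1
  omega

theorem doubling (a : ℕ → ℕ) (L : ℕ) (hL : 0 < L) (h0 : 1 ≤ a 0) (hb : ∀ j, a j ≤ 2 ^ L) :
    ∃ j < L, a (j + 1) ≤ 2 * a j := by
  by_contra! h
  have h1 : ∀ j ≤ L, 2 ^ (j + 1) ≤ a j + 1 := by
    intro j
    induction j with
    | zero => intro _; omega
    | succ j ih =>
      intro hj
      have h2 := ih (by omega)
      have h3 := h j (by omega)
      rw [pow_succ]
      omega
  have h2 := h1 L le_rfl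
  have h3 := hb L
  have h4 : 2 ^ 1 ≤ 2 ^ L := Nat.pow_le_pow_right (by norm_num) hL
  rw [pow_succ] at h2
  omega

theorem main_aux {L : ℕ} (hk : 0 < k) (hL : k + 1 ≤ 2 ^ L) (hn : 64 * k * (L + 4) ^ 3 ≤ n)
    (b : Fin (k + 1) → ZMod n) : ∃ z, (Om b z).card ≤ (T b).card := by
  classical
  have hkn : k < n := by
    have h1 : 1 ≤ (L + 4) ^ 3 := Nat.one_le_pow _ _ (by omega)
    have h2 : 64 * k * 1 ≤ 64 * k * (L + 4) ^ 3 := Nat.mul_le_mul_left _ h1
    omega
  have : NeZero n := ⟨by omega⟩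
  have hL0 : 0 < L := by
    rcases Nat.eq_zero_or_pos L with rfl | h
    · simp at hL; omega
    · exact h
  by_cases hfree : ∃ z, ∀ w, ∀ d : ℕ, 1 ≤ d → d ≤ k → b w ≠ b z + (d : ZMod n)
  · obtain ⟨z, hz⟩ := hfree
    exact ⟨z, Om_le_T_of_free hz⟩
  push Not at hfree
  -- parameters
  set S := (L + 8) / 4 with hS
  have hS1 : L + 5 ≤ 4 * S := by omega
  have hS2 : 4 * S ≤ L + 8 := by omega
  have hS3 : 2 ≤ S := by omega
  set P' := 16 * (4 * S + 3) with hP'
  set P := (L + 1) * P' with hP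
  set W := 4 * k * L with hW
  have hPW : P * W ≤ n := by
    refine le_trans ?_ hn
    have h1 : P' ≤ 16 * (L + 11) := by omega
    calc P * W ≤ (L + 1) * (16 * (L + 11)) * W := Nat.mul_le_mul_right _ (Nat.mul_le_mul_left _ h1)
      _ = 64 * k * ((L + 1) * (L + 11) * L) := by rw [hW]; ring
      _ ≤ 64 * k * (L + 4) ^ 3 := Nat.mul_le_mul_left _ (by nlinarith)
  -- the radii
  have hdb : ∀ c : ℕ, ∃ j < L, (Bl b ((c * W : ℕ) : ZMod n) (k + 2 * k * (j + 1))).card ≤
      2 * (Bl b ((c * W : ℕ) : ZMod n) (k + 2 * k * j)).card := by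
    intro c
    apply doubling (fun j => (Bl b ((c * W : ℕ) : ZMod n) (k + 2 * k * j)).card) L hL0
    · exact Finset.card_pos.2 (ball_nonempty hfree _)
    · intro j
      refine (Finset.card_le_univ _).trans ?_
      rw [Fintype.card_fin]
      exact hL
  choose j hjL hj using hdb
  set B : ℕ → Finset (Fin (k + 1)) := fun c => Bl b ((c * W : ℕ) : ZMod n) (k + 2 * k * j c)
    with hB
  have hBne : ∀ c, (B c).Nonempty := by
    intro c
    obtain ⟨w, hw⟩ := ball_nonempty hfree ((c * W : ℕ) : ZMod n)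
    refine ⟨w, ?_⟩
    rw [hB, mem_Bl]
    obtain ⟨d, hd, h⟩ := mem_Bl.1 hw
    exact ⟨d, by omega, h⟩
  have hBle : ∀ c, (B c).card ≤ 2 ^ L := by
    intro c
    refine (Finset.card_le_univ _).trans ?_
    rw [Fintype.card_fin]
    exact hL
  -- the scale
  obtain ⟨i, hi, hfib⟩ := Finset.exists_le_card_fiber_of_mul_le_card_of_maps_to
    (s := Finset.range P) (t := Finset.range (L + 1)) (f := fun c => Nat.log 2 (B c).card)
    (n := P') (by
      intro c _
      rw [Finset.mem_range, Nat.lt_succ_iff]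
      calc Nat.log 2 (B c).card ≤ Nat.log 2 (2 ^ L) := Nat.log_mono_right (hBle c)
        _ = L := Nat.log_pow (by norm_num) L)
    ⟨0, by simp⟩ (by rw [Finset.card_range, Finset.card_range])
  rw [Finset.mem_range] at hi
  set Q := (Finset.range P).filter (fun c => Nat.log 2 (B c).card = i) with hQ
  have hQ1 : ∀ c ∈ Q, 2 ^ i ≤ (B c).card := by
    intro c hc
    have h1 := (Finset.mem_filter.1 hc).2
    rw [← h1]
    exact Nat.pow_log_le_self 2 (Finset.card_pos.2 (hBne c)).ne'
  have hQ2 : ∀ c ∈ Q, (B c).card ≤ 2 ^ (i + 1) := by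
    intro c hc
    have h1 := (Finset.mem_filter.1 hc).2
    rw [← h1]
    exact (Nat.lt_pow_succ_log_self (by norm_num) _).le
  set F := Q.biUnion B with hFdef
  have hdisj : (Q : Set ℕ).PairwiseDisjoint B := by
    intro c hc c' hc' hcc'
    rw [Function.onFun, Finset.disjoint_left]
    intro x hx hx'
    have hc := Finset.mem_range.1 (Finset.mem_filter.1 (Finset.mem_coe.1 hc)).1
    have hc' := Finset.mem_range.1 (Finset.mem_filter.1 (Finset.mem_coe.1 hc')).1
    have hR : ∀ c, k + 2 * k * j c ≤ k + 2 * k * (L - 1) := by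
      intro c
      have := hjL c
      have h2 : 2 * k * j c ≤ 2 * k * (L - 1) := Nat.mul_le_mul_left _ (by omega)
      omega
    have hWR : 2 * (k + 2 * k * (L - 1)) + 1 ≤ W := by
      rw [hW]
      obtain ⟨M, rfl⟩ : ∃ M, L = M + 1 := ⟨L - 1, by omega⟩
      rw [Nat.add_sub_cancel]
      nlinarith
    rcases lt_trichotomy c c' with h | h | h
    · exact centre_inj hWR hPW hc' (hR c) (hR c') (mem_Bl.1 hx) (mem_Bl.1 hx') h
    · exact hcc' h
    · exact centre_inj hWR hPW hc (hR c') (hR c) (mem_Bl.1 hx') (mem_Bl.1 hx) h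
  have hFcard : P' * 2 ^ i ≤ F.card := by
    rw [hFdef, Finset.card_biUnion hdisj]
    refine le_trans (Nat.mul_le_mul_right _ hfib) ?_
    rw [← smul_eq_mul]
    exact Finset.card_nsmul_le_sum _ _ _ hQ1
  set D := 2 ^ (i + 2) with hD
  have hD4 : D = 4 * 2 ^ i := by rw [hD, pow_add]; ring
  have hfD : (16 * S + 12) * D ≤ F.card := by
    refine le_trans (le_of_eq ?_) hFcard
    rw [hP', hD4]
    ring
  refine exists_le_T hkn (F := F) (D := D) (S := S) (by positivity) ?_ ?_ ?_
  · intro x hx t ht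
    rw [hFdef, Finset.mem_biUnion] at hx
    obtain ⟨c, hc, hx⟩ := hx
    have h1 := ht.inBall (mem_Bl.1 hx)
    have h2 : Nb b t ⊆ Bl b ((c * W : ℕ) : ZMod n) (k + 2 * k * (j c + 1)) := by
      intro u hu
      have h3 := (mem_Nb.1 hu).inBall h1
      obtain ⟨d, hd, h4⟩ := h3
      refine mem_Bl.2 ⟨d, hd.trans (le_of_eq ?_), h4⟩
      ring
    refine (Finset.card_le_card h2).trans ((hj c).trans ?_)
    calc 2 * (B c).card ≤ 2 * 2 ^ (i + 1) := Nat.mul_le_mul_left _ (hQ2 c hc)
      _ = D := by rw [hD]; ring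
  · refine le_trans (le_of_eq ?_) hfD
    ring
  · have h1 : 8 * D ≤ (8 * S + 6) ^ S := by
      have hD' : D ≤ 2 ^ (L + 2) := Nat.pow_le_pow_right (by norm_num) (by omega)
      calc 8 * D ≤ 8 * 2 ^ (L + 2) := Nat.mul_le_mul_left _ hD'
        _ = 2 ^ (L + 5) := by ring
        _ ≤ 2 ^ (4 * S) := Nat.pow_le_pow_right (by norm_num) hS1
        _ = 16 ^ S := by rw [pow_mul]; norm_num
        _ ≤ (8 * S + 6) ^ S := Nat.pow_le_pow_left (by omega) _
    calc 2 ^ S * (8 * D ^ (S + 1)) = 2 ^ S * (8 * D) * D ^ S := by ring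
      _ ≤ 2 ^ S * (8 * S + 6) ^ S * D ^ S :=
          Nat.mul_le_mul_right _ (Nat.mul_le_mul_left _ h1)
      _ = ((16 * S + 12) * D) ^ S := by
          rw [← mul_pow, ← mul_pow]
          congr 1
          ring
      _ ≤ F.card ^ S := Nat.pow_le_pow_left hfD _

end switching

theorem N_le (n k : ℕ)
    (h : ∀ b : Fin (k + 1) → ZMod n, ∃ j : Fin (k + 1),
      Phi n k (b ∘ j.succAbove) ≤ Phi n (k + 1) b) :
    N n k ≤ N n (k + 1) := by
  have hne : (Set.range (Phi n (k + 1))).Nonempty := ⟨_, ⟨fun _ => 0, rfl⟩⟩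
  obtain ⟨b, hb⟩ := Nat.sInf_mem hne
  obtain ⟨j, hj⟩ := h b
  rw [N, N, ← hb]
  have h1 : sInf (Set.range (Phi n k)) ≤ Phi n k (b ∘ j.succAbove) :=
    Nat.sInf_le (Set.mem_range_self _)
  exact h1.trans hj

/-- Monotonicity in the range `64 k (L + 4) ^ 3 ≤ n`, where `k + 1 ≤ 2 ^ L`: from every vector of
length `k + 1` one entry can be removed without increasing the count. -/
theorem result : ∀ n k L : ℕ, 0 < k → k + 1 ≤ 2 ^ L → 64 * k * (L + 4) ^ 3 ≤ n →
    (∀ b : Fin (k + 1) → ZMod n, ∃ j : Fin (k + 1),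
      Phi n k (b ∘ j.succAbove) ≤ Phi n (k + 1) b) ∧ N n k ≤ N n (k + 1) := by
  intro n k L hk hL hn
  have h : ∀ b : Fin (k + 1) → ZMod n, ∃ j : Fin (k + 1),
      Phi n k (b ∘ j.succAbove) ≤ Phi n (k + 1) b := by
    intro b
    obtain ⟨z, hz⟩ := main_aux hk hL hn b
    refine ⟨z, (Phi_le_Om b z).trans ?_⟩
    rw [← T_eq_Phi]
    exact hz
  exact ⟨h, N_le n k h⟩

end Pool.Agent.Results.MP_2baa92_co.PolylogRange
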