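import Mathlib

/-!
# Snevily's positivity conjecture for `N(n,k)`

For all `k < n` and every `a : Fin k → ZMod n` there is a permutation `π` such that the elements
`a (π i) + i` are pairwise distinct.  Hence `N(n,k) > 0` for all `k < n`.
-/

set_option autoImplicit false

namespace Pool.Agent.Results.MP_2baa92_co.Positivity

/-- `Phi n k a`: the number of permutations `π` of the `k` indices for which the elements
`a (π 1) + 1, ..., a (π k) + k` of `ZMod n` are pairwise distinct (indices are `0, ..., k - 1`
in Lean, so the summand at index `i` is `i + 1`). -/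
noncomputable def Phi (n k : ℕ) (a : Fin k → ZMod n) : ℕ :=
  Nat.card {π : Equiv.Perm (Fin k) //
    Function.Injective fun i : Fin k => a (π i) + (((i : ℕ) + 1 : ℕ) : ZMod n)}

/-- `N n k`: the minimum of `Phi n k a` over all vectors `a`. -/
noncomputable def N (n k : ℕ) : ℕ := sInf (Set.range (Phi n k))

/-! ### Path reversal -/

section path

variable {G L : Type}

/-- the labels on the path that starts at `w`; the label `l` is an arc from `f l` to `g l` -/
inductive Pth (f g : L → G) (w : G) : L → Prop
  | base {l : L} (h : f l = w) : Pth f g w l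
  | step {l l' : L} (h : Pth f g w l) (h' : f l' = g l) : Pth f g w l'

open Classical in
/-- new tails after the reversal of the path -/
noncomputable def nf (f g : L → G) (w : G) (l : L) : G := if Pth f g w l then g l else f l

open Classical in
/-- new heads after the reversal of the path -/
noncomputable def ng (f g : L → G) (w : G) (l : L) : G := if Pth f g w l then f l else g l

theorem pth_cases {f g : L → G} {w : G} {l : L} (h : Pth f g w l) :
    f l = w ∨ ∃ l', Pth f g w l' ∧ f l = g l' := by
  cases h with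
  | base h => exact Or.inl h
  | step h h' => exact Or.inr ⟨_, h, h'⟩

theorem nf_pos {f g : L → G} {w : G} {l : L} (h : Pth f g w l) : nf f g w l = g l := by
  unfold nf; rw [if_pos h]

theorem nf_neg {f g : L → G} {w : G} {l : L} (h : ¬ Pth f g w l) : nf f g w l = f l := by
  unfold nf; rw [if_neg h]

theorem ng_pos {f g : L → G} {w : G} {l : L} (h : Pth f g w l) : ng f g w l = f l := by
  unfold ng; rw [if_pos h]

theorem ng_neg {f g : L → G} {w : G} {l : L} (h : ¬ Pth f g w l) : ng f g w l = g l := by
  unfold ng; rw [if_neg h]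

theorem nf_inj {f g : L → G} {w : G} (hf : Function.Injective f) (hg : Function.Injective g) :
    Function.Injective (nf f g w) := by
  have key : ∀ l l', Pth f g w l → ¬ Pth f g w l' → g l ≠ f l' := by
    intro l l' h h' he
    exact h' (Pth.step h he.symm)
  intro l l' he
  by_cases h1 : Pth f g w l <;> by_cases h2 : Pth f g w l'
  · rw [nf_pos h1, nf_pos h2] at he; exact hg he
  · rw [nf_pos h1, nf_neg h2] at he; exact absurd he (key l l' h1 h2)
  · rw [nf_neg h1, nf_pos h2] at he; exact absurd he.symm (key l' l h2 h1)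
  · rw [nf_neg h1, nf_neg h2] at he; exact hf he

theorem ng_inj {f g : L → G} {w : G} (hf : Function.Injective f) (hg : Function.Injective g)
    (hw : ∀ l, g l ≠ w) : Function.Injective (ng f g w) := by
  have key : ∀ l l', Pth f g w l → ¬ Pth f g w l' → f l ≠ g l' := by
    intro l l' h h' he
    rcases pth_cases h with h1 | ⟨l'', h1, h2⟩
    · exact hw l' (he ▸ h1)
    · have : l'' = l' := hg (h2.symm.trans he)
      exact h' (this ▸ h1)
  intro l l' he
  by_cases h1 : Pth f g w l <;> by_cases h2 : Pth f g w l'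
  · rw [ng_pos h1, ng_pos h2] at he; exact hf he
  · rw [ng_pos h1, ng_neg h2] at he; exact absurd he (key l l' h1 h2)
  · rw [ng_neg h1, ng_pos h2] at he; exact absurd he.symm (key l' l h2 h1)
  · rw [ng_neg h1, ng_neg h2] at he; exact hg he

end path

/-! ### States and the exchange lemma -/

section exch

variable {G L : Type} [AddCommGroup G] [Fintype G] [DecidableEq G] [Fintype L]

/-- `St a Y U`: the labels `a l` can be placed on distinct rows `f l` with distinct columns
`c l = f l + a l` such that `Y` is the set of unused rows and `U` the set of unused columns. -/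
def St (a : L → G) (Y U : Finset G) : Prop :=
  ∃ f c : L → G, Function.Injective f ∧ Function.Injective c ∧ (∀ l, c l = f l + a l) ∧
    (∀ x, x ∈ Y ↔ ∀ l, f l ≠ x) ∧ (∀ x, x ∈ U ↔ ∀ l, c l ≠ x)

theorem card_Y {a : L → G} {Y U : Finset G} (h : St a Y U) :
    Y.card + Fintype.card L = Fintype.card G ∧ U.card + Fintype.card L = Fintype.card G := by
  obtain ⟨f, c, hf, hc, -, hY, hU⟩ := h
  have key : ∀ (f : L → G) (Y : Finset G), Function.Injective f → (∀ x, x ∈ Y ↔ ∀ l, f l ≠ x) →
      Y.card + Fintype.card L = Fintype.card G := by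
    intro f Y hf hY
    have h1 : Yᶜ = Finset.univ.image f := by
      ext x
      rw [Finset.mem_compl, hY, Finset.mem_image]
      push Not
      simp
    have h2 : (Yᶜ).card = Fintype.card L := by
      rw [h1, Finset.card_image_of_injective _ hf, Finset.card_univ]
    rw [← h2]
    exact Finset.card_add_card_compl Y
  exact ⟨key f Y hf hY, key c U hc hU⟩

omit [Fintype G] in
/-- The exchange lemma. -/
theorem exch {a : L → G} {Y U : Finset G} (h : St a Y U) {w u : G} (hw : w ∉ Y) (hu : u ∈ U) :
    ∃ y ∈ Y, u + (w - y) ∉ U ∧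
      St a (insert w (Y.erase y)) (insert (u + (w - y)) (U.erase u)) := by
  classical
  obtain ⟨f, c, hf, hc, hfc, hY, hU⟩ := h
  let g : L → G := fun l => w + u - c l
  have hg : Function.Injective g := by
    intro l l' he
    exact hc (sub_right_injective he)
  have hgw : ∀ l, g l ≠ w := by
    intro l he
    have h1 : w + u - c l = w := he
    have h2 : u = c l := add_left_cancel (sub_eq_iff_eq_add.1 h1)
    exact (hU u).1 hu l h2.symm
  have hF := nf_inj (w := w) hf hg
  have hGi := ng_inj (w := w) hf hg hgw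
  -- `w` is not a new tail
  have hwF : ∀ l, nf f g w l ≠ w := by
    intro l he
    by_cases h1 : Pth f g w l
    · rw [nf_pos h1] at he; exact hgw l he
    · rw [nf_neg h1] at he; exact h1 (Pth.base he)
  -- old tails other than `w` are new tails
  have hold : ∀ l, f l ≠ w → ∃ l', nf f g w l' = f l := by
    intro l hl
    by_cases h1 : Pth f g w l
    · rcases pth_cases h1 with h2 | ⟨l', h2, h3⟩
      · exact absurd h2 hl
      · exact ⟨l', by rw [nf_pos h2, h3]⟩
    · exact ⟨l, nf_neg h1⟩
  obtain ⟨l0, hl0⟩ : ∃ l, f l = w := by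
    have := (hY w).not.1 hw
    push Not at this
    exact this
  -- there is a new tail which is not an old tail
  obtain ⟨m, hm⟩ : ∃ m, ∀ l, f l ≠ nf f g w m := by
    by_contra hno
    push Not at hno
    -- `nf` maps into the old tails different from `w`
    choose e he using hno
    have hei : Function.Injective e := by
      intro x y hxy
      apply hF
      rw [← he x, ← he y, hxy]
    have hes : Function.Surjective e := Finite.injective_iff_surjective.1 hei
    obtain ⟨x, hx⟩ := hes l0
    apply hwF x
    rw [← he x, hx, hl0]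
  have hmP : Pth f g w m := by
    by_contra h1
    exact hm m (nf_neg h1).symm
  have hmg : nf f g w m = g m := nf_pos hmP
  set y := g m with hy
  have hyY : y ∈ Y := (hY y).2 fun l => by rw [← hmg]; exact hm l
  have hyw : y ≠ w := fun h => hgw m h
  -- uniqueness: a path label whose head is unused is `m`
  have huniq : ∀ l, (∀ l', f l' ≠ nf f g w l) → nf f g w l = y := by
    -- counting: old tails except `w` are in the image of `nf`, together with `y`
    intro l hl
    by_contra hne
    have hlm : l ≠ m := fun h => hne (by rw [h, hmg])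
    -- the set of labels with new tail an old tail
    have h1 : ∀ x : {x : L // x ≠ l0}, ∃ l', nf f g w l' = f x.1 := fun x =>
      hold x.1 (fun h => x.2 (hf (h.trans hl0.symm)))
    choose e he using h1
    have hei : Function.Injective e := by
      intro x x' hxx
      apply Subtype.ext
      apply hf
      rw [← he x, ← he x', hxx]
    have hel : ∀ x, e x ≠ l := fun x h => hl x.1 (by rw [← he x, h])
    have hem : ∀ x, e x ≠ m := fun x h => hm x.1 (by rw [← he x, h])
    have hcard : Fintype.card {x : L // x ≠ l0} ≤ Fintype.card {x : L // x ≠ l ∧ x ≠ m} :=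
      Fintype.card_le_of_injective (fun x => ⟨e x, hel x, hem x⟩) (by
        intro x x' hxx
        exact hei (congrArg Subtype.val hxx))
    have hc1 : Fintype.card {x : L // x ≠ l0} = Fintype.card L - 1 := by
      rw [Fintype.card_subtype_compl, Fintype.card_subtype_eq]
    have hc2 : Fintype.card {x : L // x ≠ l ∧ x ≠ m} + 2 ≤ Fintype.card L := by
      have : Fintype.card {x : L // x ≠ l ∧ x ≠ m} =
          (Finset.univ \ {l, m} : Finset L).card := by
        rw [Fintype.card_subtype]
        congr 1
        ext x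
        simp
      rw [this, Finset.card_sdiff_of_subset (Finset.subset_univ _), Finset.card_univ]
      have h3 : ({l, m} : Finset L).card = 2 := Finset.card_pair hlm
      have h4 : ({l, m} : Finset L).card ≤ Fintype.card L := Finset.card_le_univ _
      omega
    have hc3 : 0 < Fintype.card L := Fintype.card_pos_iff.2 ⟨l0⟩
    omega
  -- new unused rows
  have hY' : ∀ x, x ∈ insert w (Y.erase y) ↔ ∀ l, nf f g w l ≠ x := by
    intro x
    rw [Finset.mem_insert, Finset.mem_erase]
    constructor
    · rintro (rfl | ⟨hxy, hxY⟩) l he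
      · exact hwF l he
      · apply hxy
        rw [← he]
        apply huniq l
        intro l' hl'
        exact (hY x).1 hxY l' (hl'.trans he)
    · intro hx
      by_cases hxw : x = w
      · exact Or.inl hxw
      · right
        refine ⟨fun h => hx m (by rw [hmg, h]), (hY x).2 fun l hl => ?_⟩
        obtain ⟨l', hl'⟩ := hold l (by rw [hl]; exact hxw)
        exact hx l' (hl'.trans hl)
  -- new heads
  have hmem1 : ∀ l, g l ≠ y → ∃ l', ng f g w l' = g l := by
    intro l hl
    by_cases h1 : Pth f g w l
    · by_cases h2 : ∃ l', f l' = g l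
      · obtain ⟨l', h2⟩ := h2
        exact ⟨l', by rw [ng_pos (Pth.step h1 h2), h2]⟩
      · push Not at h2
        exfalso
        apply hl
        have := huniq l (by rw [nf_pos h1]; exact h2)
        rwa [nf_pos h1] at this
    · exact ⟨l, ng_neg h1⟩
  have hmem2 : ∃ l', ng f g w l' = w := ⟨l0, by rw [ng_pos (Pth.base hl0), hl0]⟩
  have hyG : ∀ l, ng f g w l ≠ y := by
    intro l he
    by_cases h1 : Pth f g w l
    · rw [ng_pos h1] at he
      exact (hY y).1 hyY l he
    · rw [ng_neg h1] at he
      exact h1 (hg (he.trans hy) ▸ hmP)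
  have hU' : ∀ x, x ∈ insert (u + (w - y)) (U.erase u) ↔ ∀ l, w + u - ng f g w l ≠ x := by
    intro x
    rw [Finset.mem_insert, Finset.mem_erase]
    constructor
    · rintro (rfl | ⟨hxu, hxU⟩) l he
      · apply hyG l
        have h1 : w + u - ng f g w l = w + u - y := by rw [he]; abel
        exact sub_right_injective h1
      · -- the head `w + u - x` is neither `w` nor an old head
        have h1 : ng f g w l = w + u - x := by rw [← he]; abel
        by_cases h2 : Pth f g w l
        · rw [ng_pos h2] at h1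
          rcases pth_cases h2 with h3 | ⟨l', h3, h4⟩
          · apply hxu
            have h5 : w + u - x = w := by rw [← h1, h3]
            exact (add_left_cancel (sub_eq_iff_eq_add.1 h5)).symm
          · have h5 : g l' = w + u - x := by rw [← h4, h1]
            exact (hU x).1 hxU l' (sub_right_injective h5)
        · rw [ng_neg h2] at h1
          exact (hU x).1 hxU l (sub_right_injective h1)
    · intro hx
      by_cases hxy : x = u + (w - y)
      · exact Or.inl hxy
      · right
        constructor
        · rintro rfl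
          obtain ⟨l', hl'⟩ := hmem2
          exact hx l' (by rw [hl']; abel)
        · refine (hU x).2 fun l hl => ?_
          have h1 : g l = w + u - x := by rw [← hl]
          obtain ⟨l', hl'⟩ := hmem1 l (by
            intro h2
            apply hxy
            have : w + u - x = y := by rw [← h1, h2]
            rw [← this]; abel)
          exact hx l' (by rw [hl', h1]; abel)
  refine ⟨y, hyY, ?_, nf f g w, fun l => w + u - ng f g w l, hF, ?_, ?_, hY', hU'⟩
  · intro h1
    have := (hU _).1 h1 m
    apply this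
    have h2 : y = w + u - c m := hy
    rw [h2]; abel
  · intro l l' he
    exact hGi (sub_right_injective he)
  · intro l
    by_cases h1 : Pth f g w l
    · show w + u - ng f g w l = nf f g w l + a l
      rw [ng_pos h1, nf_pos h1]
      show w + u - f l = w + u - c l + a l
      rw [hfc]; abel
    · show w + u - ng f g w l = nf f g w l + a l
      rw [ng_neg h1, nf_neg h1, ← hfc]
      show w + u - (w + u - c l) = c l
      abel

end exch

/-! ### The nested minimisation -/


/-- a set of integers between `L` and `u` -/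
theorem card_lt_le {I : Finset ℤ} {L u : ℤ} (hL : ∀ x ∈ I, L ≤ x) (hLu : L ≤ u) :
    ((I.filter (fun x => x < u)).card : ℤ) ≤ u - L := by
  have h1 : I.filter (fun x => x < u) ⊆ Finset.Ico L u := by
    intro x hx
    rw [Finset.mem_filter] at hx
    rw [Finset.mem_Ico]
    exact ⟨hL x hx.1, hx.2⟩
  have h2 := Finset.card_le_card h1
  rw [Int.card_Ico] at h2
  omega

theorem card_gt_le {I : Finset ℤ} {R u : ℤ} (hR : ∀ x ∈ I, x ≤ R) (huR : u ≤ R) :
    ((I.filter (fun x => u < x)).card : ℤ) ≤ R - u := by
  have h1 : I.filter (fun x => u < x) ⊆ Finset.Ioc u R := by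
    intro x hx
    rw [Finset.mem_filter] at hx
    rw [Finset.mem_Ioc]
    exact ⟨hx.2, hR x hx.1⟩
  have h2 := Finset.card_le_card h1
  rw [Int.card_Ioc] at h2
  omega

theorem card_split {I : Finset ℤ} {u : ℤ} (hu : u ∈ I) :
    (I.filter (fun x => x < u)).card + (I.filter (fun x => u < x)).card + 1 = I.card := by
  have h1 : I = insert u (I.filter (fun x => x < u) ∪ I.filter (fun x => u < x)) := by
    ext x
    simp only [Finset.mem_insert, Finset.mem_union, Finset.mem_filter]
    constructor
    · intro hx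
      rcases lt_trichotomy x u with h | h | h
      · exact Or.inr (Or.inl ⟨hx, h⟩)
      · exact Or.inl h
      · exact Or.inr (Or.inr ⟨hx, h⟩)
    · rintro (rfl | h | h)
      · exact hu
      · exact h.1
      · exact h.1
  have h2 : u ∉ I.filter (fun x => x < u) ∪ I.filter (fun x => u < x) := by
    simp
  have h3 : Disjoint (I.filter (fun x => x < u)) (I.filter (fun x => u < x)) := by
    rw [Finset.disjoint_left]
    intro x hx hx'
    rw [Finset.mem_filter] at hx hx'
    exact absurd hx.2 (not_lt.2 hx'.2.le)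
  conv_rhs => rw [h1]
  rw [Finset.card_insert_of_notMem h2, Finset.card_union_of_disjoint h3]

/-- The moved particle stays inside the window. -/
theorem window {N : ℕ} {I : Finset ℤ} {L R u t t' : ℤ} (hc : I.card = N + 1) (hL : L ∈ I)
    (hR : R ∈ I) (hI : ∀ x ∈ I, L ≤ x ∧ x ≤ R) (hu : u ∈ I)
    (hr : ((I.filter (fun x => x < u)).card : ℤ) = N - t) (ht'0 : 0 ≤ t') (ht'N : t' ≤ N)
    (hz : u + (t - t') ∉ I) : L < u + (t - t') ∧ u + (t - t') < R := by
  have h1 := card_lt_le (fun x hx => (hI x hx).1) (hI u hu).1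
  have h2 := card_gt_le (fun x hx => (hI x hx).2) (hI u hu).2
  have h3 := card_split hu
  have hzL : u + (t - t') ≠ L := fun h => hz (h ▸ hL)
  have hzR : u + (t - t') ≠ R := fun h => hz (h ▸ hR)
  omega

/-- The nested minimisation. -/
theorem core : ∀ (N : ℕ) (F : ℤ → Finset ℤ → Prop), (∃ t I, F t I) →
    (∀ t I, F t I → 0 ≤ t ∧ t ≤ N ∧ I.card = N + 1) →
    (∀ t I, F t I → ∀ u ∈ I, ((I.filter (fun x => x < u)).card : ℤ) = N - t →
      ∃ t', t' ≠ t ∧ u + (t - t') ∉ I ∧ F t' (insert (u + (t - t')) (I.erase u))) → False := by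
  intro N
  induction N using Nat.strong_induction_on with
  | _ N ih =>
  intro F hne hF hstep
  classical
  -- spans
  let P : ℕ → Prop := fun d => ∃ (L R t : ℤ) (I : Finset ℤ), F t I ∧ L ∈ I ∧ R ∈ I ∧
    (∀ x ∈ I, L ≤ x ∧ x ≤ R) ∧ R - L = d
  have hPof : ∀ t I, F t I → ∀ L R : ℤ, (∀ x ∈ I, L ≤ x ∧ x ≤ R) → ∃ d, P d ∧ (d : ℤ) ≤ R - L := by
    intro t I hI L R hLR
    have hIne : I.Nonempty := by
      rw [← Finset.card_pos, (hF t I hI).2.2]; omega
    have hm := I.min'_mem hIne
    have hM := I.max'_mem hIne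
    have h1 := hLR _ hm
    have h2 := hLR _ hM
    have h3 : I.min' hIne ≤ I.max' hIne := I.min'_le _ hM
    refine ⟨(I.max' hIne - I.min' hIne).toNat, ⟨I.min' hIne, I.max' hIne, t, I, hI, hm, hM,
      fun x hx => ⟨I.min'_le x hx, I.le_max' x hx⟩, ?_⟩, ?_⟩
    · omega
    · omega
  have hPne : ∃ d, P d := by
    obtain ⟨t, I, hI⟩ := hne
    have hIne : I.Nonempty := by
      rw [← Finset.card_pos, (hF t I hI).2.2]; omega
    obtain ⟨d, hd, -⟩ := hPof t I hI (I.min' hIne) (I.max' hIne)
      (fun x hx => ⟨I.min'_le x hx, I.le_max' x hx⟩)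
    exact ⟨d, hd⟩
  let d := Nat.find hPne
  have hd : P d := Nat.find_spec hPne
  have hdmin : ∀ t I, F t I → ∀ L R : ℤ, (∀ x ∈ I, L ≤ x ∧ x ≤ R) → (d : ℤ) ≤ R - L := by
    intro t I hI L R hLR
    obtain ⟨d', hd', hle⟩ := hPof t I hI L R hLR
    have : d ≤ d' := Nat.find_min' hPne hd'
    omega
  -- interior vacancies
  have hint : ∀ (L R t : ℤ) (I : Finset ℤ), F t I → L ∈ I → R ∈ I → (∀ x ∈ I, L ≤ x ∧ x ≤ R) →
      R - L = d → 0 < t ∧ t < N := by
    intro L R t I hI hL hR hLR hd
    obtain ⟨ht0, htN, hcard⟩ := hF t I hI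
    constructor
    · by_contra h0
      have ht : t = 0 := by omega
      subst ht
      have hr : ((I.filter (fun x => x < R)).card : ℤ) = N - 0 := by
        have h1 : I.filter (fun x => R < x) = ∅ := by
          rw [Finset.filter_eq_empty_iff]
          intro x hx
          exact not_lt.2 (hLR x hx).2
        have h2 := card_split hR
        rw [h1, Finset.card_empty] at h2
        omega
      obtain ⟨t', ht', hz, hF'⟩ := hstep 0 I hI R hR hr
      obtain ⟨ht'0, ht'N, -⟩ := hF _ _ hF'
      have hw := window hcard hL hR hLR hR hr ht'0 ht'N hz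
      have := hdmin _ _ hF' L (R - 1) (by
        intro x hx
        rw [Finset.mem_insert, Finset.mem_erase] at hx
        rcases hx with rfl | ⟨hxR, hx⟩
        · omega
        · have := hLR x hx
          omega)
      omega
    · by_contra h0
      have ht : t = N := by omega
      subst ht
      have hr : ((I.filter (fun x => x < L)).card : ℤ) = N - N := by
        have h1 : I.filter (fun x => x < L) = ∅ := by
          rw [Finset.filter_eq_empty_iff]
          intro x hx
          exact not_lt.2 (hLR x hx).1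
        rw [h1, Finset.card_empty]; simp
      obtain ⟨t', ht', hz, hF'⟩ := hstep N I hI L hL hr
      obtain ⟨ht'0, ht'N, -⟩ := hF _ _ hF'
      have hw := window hcard hL hR hLR hL hr ht'0 ht'N hz
      have := hdmin _ _ hF' (L + 1) R (by
        intro x hx
        rw [Finset.mem_insert, Finset.mem_erase] at hx
        rcases hx with rfl | ⟨hxR, hx⟩
        · omega
        · have := hLR x hx
          omega)
      omega
  obtain ⟨L0, R0, t0, I0, hF0, hL0, hR0, hLR0, hd0⟩ := hd
  have hN2 : 2 ≤ N := by
    have := hint L0 R0 t0 I0 hF0 hL0 hR0 hLR0 hd0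
    omega
  -- the family of the inner particles
  refine ih (N - 2) (by omega) (fun s I' => ∃ (L R : ℤ) (I : Finset ℤ), F (s + 1) I ∧ L ∈ I ∧
    R ∈ I ∧ (∀ x ∈ I, L ≤ x ∧ x ≤ R) ∧ R - L = d ∧ I' = (I.erase L).erase R) ?_ ?_ ?_
  · refine ⟨t0 - 1, _, L0, R0, I0, ?_, hL0, hR0, hLR0, hd0, rfl⟩
    rw [sub_add_cancel]; exact hF0
  · rintro s I' ⟨L, R, I, hI, hL, hR, hLR, hd, rfl⟩
    obtain ⟨-, -, hcard⟩ := hF _ _ hI
    have h1 := hint L R _ I hI hL hR hLR hd
    have hLRne : R ≠ L := by
      rintro rfl
      have h2 : I ⊆ {R} := fun x hx => by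
        rw [Finset.mem_singleton]
        have := hLR x hx
        omega
      have := Finset.card_le_card h2
      rw [Finset.card_singleton] at this
      omega
    refine ⟨by omega, by push_cast [Nat.cast_sub hN2]; omega, ?_⟩
    rw [Finset.card_erase_of_mem (Finset.mem_erase.2 ⟨hLRne, hR⟩), Finset.card_erase_of_mem hL,
      hcard]
    omega
  · rintro s I' ⟨L, R, I, hI, hL, hR, hLR, hd, rfl⟩ u hu hr
    obtain ⟨-, -, hcard⟩ := hF _ _ hI
    have h1 := hint L R _ I hI hL hR hLR hd
    rw [Finset.mem_erase, Finset.mem_erase] at hu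
    obtain ⟨huR, huL, huI⟩ := hu
    have huLR := hLR u huI
    have hLRne : R ≠ L := by omega
    have hr' : ((I.filter (fun x => x < u)).card : ℤ) = N - (s + 1) := by
      have h2 : I.filter (fun x => x < u) =
          insert L (((I.erase L).erase R).filter (fun x => x < u)) := by
        ext x
        simp only [Finset.mem_filter, Finset.mem_insert, Finset.mem_erase]
        constructor
        · rintro ⟨hx, hxu⟩
          by_cases hxL : x = L
          · exact Or.inl hxL
          · exact Or.inr ⟨⟨by omega, hxL, hx⟩, hxu⟩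
        · rintro (rfl | ⟨⟨_, _, hx⟩, hxu⟩)
          · exact ⟨hL, by omega⟩
          · exact ⟨hx, hxu⟩
      rw [h2, Finset.card_insert_of_notMem (by simp)]
      push_cast
      rw [hr]
      push_cast [Nat.cast_sub hN2]
      ring
    obtain ⟨t', ht', hz, hF'⟩ := hstep _ I hI u huI hr'
    obtain ⟨ht'0, ht'N, -⟩ := hF _ _ hF'
    have hw := window hcard hL hR hLR huI hr' ht'0 ht'N hz
    refine ⟨t' - 1, by omega, ?_, L, R, insert (u + (s + 1 - t')) (I.erase u), ?_, ?_, ?_, ?_,
      hd, ?_⟩
    · have h3 : u + (s - (t' - 1)) = u + (s + 1 - t') := by ring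
      rw [h3]
      intro h4
      rw [Finset.mem_erase, Finset.mem_erase] at h4
      exact hz h4.2.2
    · rw [sub_add_cancel]; exact hF'
    · rw [Finset.mem_insert, Finset.mem_erase]
      exact Or.inr ⟨Ne.symm huL, hL⟩
    · rw [Finset.mem_insert, Finset.mem_erase]
      exact Or.inr ⟨Ne.symm huR, hR⟩
    · intro x hx
      rw [Finset.mem_insert, Finset.mem_erase] at hx
      rcases hx with rfl | ⟨_, hx⟩
      · omega
      · exact hLR x hx
    · have h3 : u + (s - (t' - 1)) = u + (s + 1 - t') := by ring
      rw [h3]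
      ext x
      simp only [Finset.mem_insert, Finset.mem_erase]
      constructor
      · rintro (rfl | ⟨hxu, hxR, hxL, hx⟩)
        · exact ⟨by omega, by omega, Or.inl rfl⟩
        · exact ⟨hxR, hxL, Or.inr ⟨hxu, hx⟩⟩
      · rintro ⟨hxR, hxL, rfl | ⟨hxu, hx⟩⟩
        · exact Or.inl rfl
        · exact Or.inr ⟨hxu, hxR, hxL, hx⟩

/-! ### Existence of states -/

section exist

variable {G : Type} [AddCommGroup G] [Fintype G] [DecidableEq G]

omit [Fintype G] in
theorem St.snoc {k : ℕ} {a : Fin (k + 1) → G} {Y U : Finset G}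
    (h : St (fun i : Fin k => a i.castSucc) Y U) {w : G} (hw : w ∈ Y)
    (hu : w + a (Fin.last k) ∈ U) : St a (Y.erase w) (U.erase (w + a (Fin.last k))) := by
  obtain ⟨f, c, hf, hc, hfc, hY, hU⟩ := h
  have hinj : ∀ (f : Fin k → G) (w : G), Function.Injective f → (∀ l, f l ≠ w) →
      Function.Injective (Fin.snoc (α := fun _ => G) f w) := by
    intro f w hf hw x y
    refine Fin.lastCases ?_ (fun x => ?_) x <;> refine Fin.lastCases ?_ (fun y => ?_) y
    · intro _; rfl
    · intro he
      rw [Fin.snoc_last, Fin.snoc_castSucc] at he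
      exact absurd he.symm (hw y)
    · intro he
      rw [Fin.snoc_last, Fin.snoc_castSucc] at he
      exact absurd he (hw x)
    · intro he
      rw [Fin.snoc_castSucc, Fin.snoc_castSucc] at he
      rw [hf he]
  have hmem : ∀ (f : Fin k → G) (w : G) (Y : Finset G), (∀ x, x ∈ Y ↔ ∀ l, f l ≠ x) →
      ∀ x, x ∈ Y.erase w ↔ ∀ l, (Fin.snoc (α := fun _ => G) f w) l ≠ x := by
    intro f w Y hY x
    rw [Finset.mem_erase, hY]
    constructor
    · rintro ⟨h1, h2⟩ l
      refine Fin.lastCases ?_ (fun l => ?_) l
      · rw [Fin.snoc_last]; exact Ne.symm h1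
      · rw [Fin.snoc_castSucc]; exact h2 l
    · intro h1
      refine ⟨?_, fun l => ?_⟩
      · have := h1 (Fin.last k)
        rw [Fin.snoc_last] at this
        exact this.symm
      · have := h1 l.castSucc
        rwa [Fin.snoc_castSucc] at this
  refine ⟨Fin.snoc (α := fun _ => G) f w, Fin.snoc (α := fun _ => G) c (w + a (Fin.last k)),
    hinj f w hf ((hY w).1 hw), hinj c _ hc ((hU _).1 hu), ?_, hmem f w Y hY, hmem c _ U hU⟩
  intro l
  refine Fin.lastCases ?_ (fun l => ?_) l
  · rw [Fin.snoc_last, Fin.snoc_last]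
  · rw [Fin.snoc_castSucc, Fin.snoc_castSucc, hfc]

theorem exists_St : ∀ (k : ℕ) (a : Fin k → G), k < Fintype.card G → ∃ Y U, St a Y U := by
  intro k
  induction k with
  | zero =>
    intro a _
    refine ⟨Finset.univ, Finset.univ, fun l => l.elim0, fun l => l.elim0, fun l => l.elim0,
      fun l => l.elim0, fun l => l.elim0, fun x => ?_, fun x => ?_⟩
    · simp
    · simp
  | succ k ih =>
    intro a hk
    obtain ⟨Y, U, h⟩ := ih (fun i => a i.castSucc) (by omega)
    have hc := (card_Y h).2
    rw [Fintype.card_fin] at hc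
    obtain ⟨c, hcU, c', hcU', hne⟩ := Finset.one_lt_card.1 (show 1 < U.card by omega)
    set w := c - a (Fin.last k) with hw
    have hwc : w + a (Fin.last k) = c := by rw [hw]; abel
    by_cases hwY : w ∈ Y
    · exact ⟨_, _, h.snoc hwY (by rw [hwc]; exact hcU)⟩
    · obtain ⟨y, -, -, h'⟩ := exch h hwY hcU'
      refine ⟨_, _, h'.snoc (w := w) (Finset.mem_insert_self _ _) ?_⟩
      rw [hwc, Finset.mem_insert, Finset.mem_erase]
      exact Or.inr ⟨hne, hcU⟩

end exist

/-! ### A state whose unused rows form a block -/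

section block

variable {n : ℕ} [NeZero n] {L : Type} [Fintype L]

theorem cast_inj {x y : ℤ} (h : ((x : ℤ) : ZMod n) = y) (h1 : x - y < n) (h2 : y - x < n) :
    x = y := by
  have h3 : (n : ℤ) ∣ y - x := (ZMod.intCast_eq_intCast_iff_dvd_sub x y n).1 h
  obtain ⟨c, hc⟩ := h3
  have hn : (0 : ℤ) < n := by exact_mod_cast Nat.pos_of_ne_zero (NeZero.ne n)
  have h4 : c = 0 := by
    by_contra hc0
    rcases lt_or_gt_of_ne hc0 with h5 | h5
    · nlinarith
    · nlinarith
  rw [h4] at hc
  omega

theorem step {a : L → ZMod n} {j : ℕ} (hjn : (j : ℤ) < n)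
    (hmax : ¬ ∃ (Y U : Finset (ZMod n)) (p : ZMod n), St a Y U ∧
      ∀ t : ℕ, t < j + 1 → p + (t : ZMod n) ∈ Y)
    {Y U : Finset (ZMod n)} {p : ZMod n} {v : ℤ} (hv0 : 0 ≤ v) (hvj : v ≤ j) (h : St a Y U)
    (hp : ∀ t : ℤ, 0 ≤ t → t ≤ j → t ≠ v → p + (t : ZMod n) ∈ Y) {u : ZMod n} (hu : u ∈ U) :
    ∃ v' : ℤ, 0 ≤ v' ∧ v' ≤ j ∧ v' ≠ v ∧ u + ((v - v' : ℤ) : ZMod n) ∉ U ∧
      ∃ Y' : Finset (ZMod n), St a Y' (insert (u + ((v - v' : ℤ) : ZMod n)) (U.erase u)) ∧
        ∀ t : ℤ, 0 ≤ t → t ≤ j → t ≠ v' → p + (t : ZMod n) ∈ Y' := by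
  have hw : p + (v : ZMod n) ∉ Y := by
    intro hw
    apply hmax
    refine ⟨Y, U, p, h, fun t ht => ?_⟩
    by_cases htv : (t : ℤ) = v
    · rw [← htv] at hw
      exact_mod_cast hw
    · have := hp t (by positivity) (by omega) htv
      exact_mod_cast this
  obtain ⟨y, hy, hyU, h'⟩ := exch h hw hu
  -- `y` is in the region
  by_cases hreg : ∃ v' : ℤ, 0 ≤ v' ∧ v' ≤ j ∧ y = p + (v' : ZMod n)
  · obtain ⟨v', hv'0, hv'j, rfl⟩ := hreg
    have he : u + (p + (v : ZMod n) - (p + (v' : ZMod n))) = u + ((v - v' : ℤ) : ZMod n) := by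
      push_cast; ring
    rw [he] at hyU h'
    refine ⟨v', hv'0, hv'j, ?_, hyU, _, h', ?_⟩
    · rintro rfl; exact hw hy
    · intro t ht0 htj htv'
      rw [Finset.mem_insert]
      by_cases htv : t = v
      · left; rw [htv]
      · right
        rw [Finset.mem_erase]
        refine ⟨?_, hp t ht0 htj htv⟩
        intro he'
        have he2 : ((t : ℤ) : ZMod n) = (v' : ZMod n) := add_left_cancel he'
        apply htv'
        exact cast_inj he2 (by omega) (by omega)
  · exfalso
    push Not at hreg
    apply hmax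
    refine ⟨_, _, p, h', fun t ht => ?_⟩
    rw [Finset.mem_insert]
    by_cases htv : (t : ℤ) = v
    · left
      rw [← htv]; push_cast; rfl
    · right
      rw [Finset.mem_erase]
      refine ⟨?_, ?_⟩
      · have := hreg t (by positivity) (by omega)
        intro he
        apply this
        rw [← he]; push_cast; rfl
      · have := hp t (by positivity) (by omega) htv
        exact_mod_cast this

/-- The block can be enlarged as long as it is shorter than the number of unused columns. -/
theorem enlarge {a : L → ZMod n} {j : ℕ} (hj : j < n - Fintype.card L)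
    (h : ∃ (Y U : Finset (ZMod n)) (p : ZMod n), St a Y U ∧
      ∀ t : ℕ, t < j → p + (t : ZMod n) ∈ Y) :
    ∃ (Y U : Finset (ZMod n)) (p : ZMod n), St a Y U ∧
      ∀ t : ℕ, t < j + 1 → p + (t : ZMod n) ∈ Y := by
  by_contra hmax
  obtain ⟨Y, U, p, hSt, hp⟩ := h
  refine core j (fun t I => 0 ≤ t ∧ t ≤ j ∧ I.card = j + 1 ∧ (∀ x ∈ I, ∀ y ∈ I, x - y < n) ∧
    ∃ (Y U : Finset (ZMod n)) (p : ZMod n), St a Y U ∧
      (∀ s : ℤ, 0 ≤ s → s ≤ j → s ≠ t → p + (s : ZMod n) ∈ Y) ∧
      ∀ x ∈ I, ((x : ℤ) : ZMod n) ∈ U) ?_ ?_ ?_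
  · -- a starting configuration
    have hcU := (card_Y hSt).2
    rw [ZMod.card] at hcU
    have h1 : (U.image (fun x : ZMod n => (x.val : ℤ))).card = U.card := by
      apply Finset.card_image_of_injective
      intro x y hxy
      have hxy' : ((x.val : ℕ) : ℤ) = ((y.val : ℕ) : ℤ) := hxy
      have : x.val = y.val := by exact_mod_cast hxy'
      exact ZMod.val_injective n this
    obtain ⟨I, hIs, hIc⟩ := Finset.exists_subset_card_eq
      (show j + 1 ≤ (U.image (fun x : ZMod n => (x.val : ℤ))).card by rw [h1]; omega)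
    refine ⟨j, I, by positivity, le_rfl, hIc, ?_, Y, U, p, hSt, ?_, ?_⟩
    · intro x hx y hy
      have hx' := hIs hx
      have hy' := hIs hy
      rw [Finset.mem_image] at hx' hy'
      obtain ⟨x', -, rfl⟩ := hx'
      obtain ⟨y', -, rfl⟩ := hy'
      have := ZMod.val_lt x'
      omega
    · intro s hs0 hsj hs
      obtain ⟨s', rfl⟩ : ∃ s' : ℕ, s = s' := ⟨s.toNat, (Int.toNat_of_nonneg hs0).symm⟩
      have := hp s' (by omega)
      exact_mod_cast this
    · intro x hx
      have hx' := hIs hx
      rw [Finset.mem_image] at hx'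
      obtain ⟨x', hx'U, rfl⟩ := hx'
      have : (((x'.val : ℕ) : ℤ) : ZMod n) = x' := by
        push_cast; exact ZMod.natCast_zmod_val x'
      rw [this]; exact hx'U
  · rintro t I ⟨h0, h1, h2, -⟩
    exact ⟨h0, h1, h2⟩
  · rintro t I ⟨ht0, htj, hcard, hspan, Y, U, p, hSt, hp, hIU⟩ u hu hr
    obtain ⟨v', hv'0, hv'j, hv't, hnU, Y', hSt', hp'⟩ := step (by omega) hmax ht0 htj hSt hp (hIU u hu)
    have hcast : ((u + (t - v') : ℤ) : ZMod n) = (u : ZMod n) + ((t - v' : ℤ) : ZMod n) := by
      push_cast; ring
    have hnI : u + (t - v') ∉ I := by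
      intro h1
      apply hnU
      rw [← hcast]
      exact hIU _ h1
    -- window
    have hIne : I.Nonempty := ⟨u, hu⟩
    have hw := window hcard (I.min'_mem hIne) (I.max'_mem hIne)
      (fun x hx => ⟨I.min'_le x hx, I.le_max' x hx⟩) hu hr hv'0 hv'j hnI
    have hspan' := hspan _ (I.max'_mem hIne) _ (I.min'_mem hIne)
    refine ⟨v', hv't, hnI, hv'0, hv'j, ?_, ?_, Y', _, p, hSt', hp', ?_⟩
    · rw [Finset.card_insert_of_notMem (fun h1 => hnI (Finset.mem_of_mem_erase h1)),
        Finset.card_erase_of_mem hu, hcard]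
      omega
    · intro x hx y hy
      have hb : ∀ x ∈ insert (u + (t - v')) (I.erase u), I.min' hIne ≤ x ∧ x ≤ I.max' hIne := by
        intro x hx
        rw [Finset.mem_insert, Finset.mem_erase] at hx
        rcases hx with rfl | ⟨-, hx⟩
        · exact ⟨hw.1.le, hw.2.le⟩
        · exact ⟨I.min'_le x hx, I.le_max' x hx⟩
      have h1 := hb x hx
      have h2 := hb y hy
      omega
    · intro x hx
      rw [Finset.mem_insert, Finset.mem_erase] at hx
      rw [Finset.mem_insert, Finset.mem_erase]
      rcases hx with rfl | ⟨hxu, hx⟩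
      · left; exact hcast
      · right
        refine ⟨fun he => hxu (cast_inj he (hspan x hx u hu) (hspan u hu x hx)), hIU x hx⟩

theorem exists_block {a : L → ZMod n} (hne : ∃ Y U, St a Y U) :
    ∀ j : ℕ, j ≤ n - Fintype.card L → ∃ (Y U : Finset (ZMod n)) (p : ZMod n), St a Y U ∧
      ∀ t : ℕ, t < j → p + (t : ZMod n) ∈ Y := by
  intro j
  induction j with
  | zero =>
    intro _
    obtain ⟨Y, U, h⟩ := hne
    exact ⟨Y, U, 0, h, fun t ht => absurd ht (by omega)⟩
  | succ j ih =>
    intro hj
    exact enlarge (by omega) (ih (by omega))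

end block

/-! ### The main theorem -/

theorem exists_perm (n k : ℕ) (hk : k < n) (a : Fin k → ZMod n) :
    ∃ π : Equiv.Perm (Fin k),
      Function.Injective fun i : Fin k => a (π i) + (((i : ℕ) + 1 : ℕ) : ZMod n) := by
  have : NeZero n := ⟨by omega⟩
  obtain ⟨Y, U, p, hSt, hp⟩ := exists_block (exists_St k a (by rw [ZMod.card]; exact hk))
    (n - k) (by rw [Fintype.card_fin])
  have hcY := (card_Y hSt).1
  rw [ZMod.card, Fintype.card_fin] at hcY
  obtain ⟨f, c, hf, hc, hfc, hY, hU⟩ := hSt
  -- `Y` is the block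
  have hYeq : Y = (Finset.range (n - k)).image (fun t : ℕ => p + (t : ZMod n)) := by
    symm
    apply Finset.eq_of_subset_of_card_le
    · intro x hx
      rw [Finset.mem_image] at hx
      obtain ⟨t, ht, rfl⟩ := hx
      exact hp t (Finset.mem_range.1 ht)
    · rw [Finset.card_image_of_injOn, Finset.card_range]
      · omega
      · intro t ht t' ht' he
        have ht := Finset.mem_range.1 ht
        have ht' := Finset.mem_range.1 ht'
        have h1 : (((t : ℤ)) : ZMod n) = ((t' : ℤ) : ZMod n) := by
          push_cast; exact add_left_cancel he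
        have := cast_inj h1 (by omega) (by omega)
        omega
  have hex : ∀ i : Fin k, ∃ l, f l = p + (((n - k + i : ℕ)) : ZMod n) := by
    intro i
    by_contra hno
    push Not at hno
    have h1 : p + (((n - k + i : ℕ)) : ZMod n) ∈ Y := (hY _).2 hno
    rw [hYeq, Finset.mem_image] at h1
    obtain ⟨t, ht, he⟩ := h1
    have ht := Finset.mem_range.1 ht
    have h1 : (((t : ℤ)) : ZMod n) = (((n - k + i : ℕ) : ℤ) : ZMod n) := by
      push_cast at he ⊢; exact add_left_cancel he
    have hi := i.2
    have := cast_inj h1 (by omega) (by omega)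
    omega
  choose g hg using hex
  have hginj : Function.Injective g := by
    intro i i' he
    have h0 : (((n - k + i : ℕ)) : ZMod n) = (((n - k + i' : ℕ)) : ZMod n) := by
      apply add_left_cancel (a := p)
      rw [← hg i, ← hg i', he]
    have h1 : (((n - k + i : ℕ) : ℤ) : ZMod n) = (((n - k + i' : ℕ) : ℤ) : ZMod n) := by
      exact_mod_cast h0
    have hi := i.2
    have hi' := i'.2
    have := cast_inj h1 (by omega) (by omega)
    apply Fin.ext
    omega
  refine ⟨Equiv.ofBijective g (Finite.injective_iff_bijective.1 hginj), ?_⟩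
  intro i i' he
  have h1 : ∀ i : Fin k, a (g i) + (((i : ℕ) + 1 : ℕ) : ZMod n) =
      c (g i) + (1 - p - ((n - k : ℕ) : ZMod n)) := by
    intro i
    rw [hfc, hg]
    push_cast
    ring
  simp only [Equiv.ofBijective_apply] at he
  rw [h1, h1] at he
  exact hginj (hc (add_right_cancel he))

theorem phi_pos (n k : ℕ) (hk : k < n) (a : Fin k → ZMod n) : 0 < Phi n k a := by
  obtain ⟨π, hπ⟩ := exists_perm n k hk a
  have : Nonempty {π : Equiv.Perm (Fin k) //
      Function.Injective fun i : Fin k => a (π i) + (((i : ℕ) + 1 : ℕ) : ZMod n)} := ⟨⟨π, hπ⟩⟩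
  exact Nat.card_pos

/-- **Snevily's conjecture**: `N(n,k) > 0` for all `k < n`. -/
theorem result : ∀ n k : ℕ, k < n → 0 < N n k := by
  intro n k hk
  obtain ⟨a, ha⟩ : sInf (Set.range (Phi n k)) ∈ Set.range (Phi n k) :=
    Nat.sInf_mem ⟨_, fun _ => 0, rfl⟩
  show 0 < sInf (Set.range (Phi n k))
  rw [← ha]
  exact phi_pos n k hk a

end Pool.Agent.Results.MP_2baa92_co.Positivity
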